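import Pool.Agent.Work.MP_343d73_gt.Core

set_option autoImplicit false

/-!
The geometric form of the final statement and the bridge items.
-/

namespace Pool.Agent.MP_343d73

variable {τ V : Type}

/-- the geometric form of the final statement -/
def Final2 : Prop := ∀ {τ V τ' V' G : Type} [Group G] [MulAction G τ] [MulAction G V]
  [MulAction G τ'] [MulAction G V'] (X : Tri τ V) (Y : Tri τ' V') (D : Set (τ' × Fin 4)),
  X.IsDeck G → X.SimplyConn → X.H2Zero → (D.Nonempty → X.ToralBoundary G) →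
  Y.IsDeck G → Y.SimplyConn → Y.H2Zero → Y.IsJSJ G D →
  ∀ k, TreewidthLE (X.dualGraph G) k → TreewidthLE (Y.pieceGraph G D) (1280 * (k + 1))

/-! ### Bridge items -/

/-- R1 -/
def PR1 : Prop := ∀ {τ V : Type} (X : Tri τ V), X.SimplyConn → X.H1Zero

/-- the component of the surface that contains the face `a` (both sides) -/
def Tri.SurfRel (X : Tri τ V) (D : Set (τ × Fin 4)) : τ × Fin 4 → τ × Fin 4 → Prop :=
  Relation.EqvGen (fun a b => X.SideStep D a b ∨ (a ∈ D ∧ b = (X.nb a.1 a.2, X.pm a.1 a.2 a.2)))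

/-- R2: faces on the same side bound the same two pieces -/
def PR2 : Prop := ∀ {τ V : Type} (X : Tri τ V) (D : Set (τ × Fin 4)), X.IsSurface D →
  (∀ a b, a ∈ D → X.SideRel D a b → b ∈ D ∧ X.PieceRel D a.1 b.1 ∧
    X.PieceRel D (X.nb a.1 a.2) (X.nb b.1 b.2) ∧
    X.SideRel D (X.nb a.1 a.2, X.pm a.1 a.2 a.2) (X.nb b.1 b.2, X.pm b.1 b.2 b.2)) ∧
  ∀ a b, a ∈ D → X.SurfRel D a b → X.SideRel D a b ∨
    X.SideRel D (X.nb a.1 a.2, X.pm a.1 a.2 a.2) b

/-- R3: the separation function of a component -/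
def PR3 : Prop := ∀ {τ V : Type} (X : Tri τ V) (D : Set (τ × Fin 4)), X.SimplyConn →
  X.IsSurface D → ∀ a, a ∈ D → ∃ s : τ → ZMod 2, ∀ t i,
  ((t, i) ∈ D ∧ X.SurfRel D a (t, i) → s (X.nb t i) = s t + 1) ∧
  (¬ ((t, i) ∈ D ∧ X.SurfRel D a (t, i)) → s (X.nb t i) = s t)

/-- the graph of the pieces of `X` -/
def Tri.treeGraph (X : Tri τ V) (D : Set (τ × Fin 4)) : SimpleGraph (Quot (X.PieceStep D)) :=
  SimpleGraph.fromRel (fun p q => ∃ t i, (t, i) ∈ D ∧ Quot.mk _ t = p ∧ Quot.mk _ (X.nb t i) = q)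

/-- R4: it is a tree, and two adjacent pieces are separated by a unique component -/
def PR4 : Prop := ∀ {τ V : Type} (X : Tri τ V) (D : Set (τ × Fin 4)), X.SimplyConn →
  X.IsSurface D → (X.treeGraph D).IsTree ∧
  (∀ t i, (t, i) ∈ D → (X.treeGraph D).Adj (Quot.mk _ t) (Quot.mk _ (X.nb t i))) ∧
  ∀ t i t' i', (t, i) ∈ D → (t', i') ∈ D → X.PieceRel D t t' →
    X.PieceRel D (X.nb t i) (X.nb t' i') → X.SideRel D (t, i) (t', i')

/-- R6: treewidth is an invariant -/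
def PR6 : Prop := ∀ {Q Q' : Type} (D : SimpleGraph Q) (D' : SimpleGraph Q'), Nonempty (D ≃g D') →
  ∀ k, TreewidthLE D k → TreewidthLE D' k

end Pool.Agent.MP_343d73
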