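import Pool.Agent.Work.MP_343d73_gt.Bd.B03

set_option autoImplicit false

/-!
H9: the sum over all frontier faces of an equivariant family of primitives vanishes.
-/

namespace Pool.Agent.MP_343d73

open scoped Classical
noncomputable section

namespace H9

open HPt

variable {τ V σ G : Type} [Group G] [MulAction G τ] [MulAction G V] [MulAction G σ]
  (C : Ctx τ V σ G)

/-- a face which crosses `P` flatly has images behind both ends -/
theorem F6_ends (h4 : PA4) (P : σ × σ) (t : τ) (i : Fin 4) (h6 : C.F6 P t i) :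
    ∃ j k, Beh C.S P.1 P.2 (C.img t j) ∧ Beh C.S P.2 P.1 (C.img t k) := by
  obtain ⟨hP, hfl, j, k, hj, hk, hfj, hfk⟩ := h6
  refine ⟨k, j, ?_, ?_⟩
  · rcases hfl k hk with h | h
    · exact h
    · exact absurd (far2 C h4 P 3 (by omega) _ h) hfk
  · rcases hfl j hj with h | h
    · exact absurd hfj (far1 C h4 P 3 (by omega) _ h)
    · exact h

theorem F6_swap (h4 : PA4) (P : σ × σ) (t : τ) (i : Fin 4) (h6 : C.F6 P t i) :
    C.F6 P.swap t i := by
  obtain ⟨hP, hfl, j, k, hj, hk, hfj, hfk⟩ := h6
  have hPs : C.S.dist P.swap.1 P.swap.2 = 6 := by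
    show C.S.dist P.2 P.1 = 6
    rw [dc]; exact hP
  refine ⟨hPs, fun m hm => (flatR_swap C P _).2 (hfl m hm), k, j, hk, hj, ?_, ?_⟩
  · rcases hfl k hk with h | h
    · exact far2 C h4 P.swap 3 (by omega) _ h
    · exact absurd (far2 C h4 P 3 (by omega) _ h) hfk
  · rcases hfl j hj with h | h
    · exact absurd hfj (far1 C h4 P 3 (by omega) _ h)
    · exact far1 C h4 P.swap 3 (by omega) _ h

/-- the indicator functions of the two middle edges add up to one on flat images -/
theorem cE_swap (h4 : PA4) (P : σ × σ) (hP : C.S.dist P.1 P.2 = 6) (v : V)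
    (hfl : C.flatR P (C.ph v)) :
    C.cE (C.pt P.swap 3, C.pt P.swap 4) v = 1 - C.cE (C.pt P 3, C.pt P 4) v := by
  have hPs : C.S.dist P.swap.1 P.swap.2 = 6 := by
    show C.S.dist P.2 P.1 = 6
    rw [dc]; exact hP
  unfold Ctx.cE
  rcases hfl with h | h
  · rw [if_pos (far2 C h4 P.swap 3 (by omega) _ h), if_neg (far1 C h4 P 3 (by omega) _ h)]
    simp
  · rw [if_neg (far1 C h4 P.swap 3 (by omega) _ h), if_pos (far2 C h4 P 3 (by omega) _ h)]
    simp

theorem Wd_swap (h4 : PA4) (P : σ × σ) (t : τ) (i : Fin 4) (h6 : C.F6 P t i)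
    (b : τ → Fin 4 → Fin 4 → ℝ) :
    C.X.Wd (C.cE (C.pt P.swap 3, C.pt P.swap 4)) b t i =
      - C.X.Wd (C.cE (C.pt P 3, C.pt P 4)) b t i := by
  obtain ⟨hP, hfl, -⟩ := h6
  unfold Tri.Wd Tri.cbar d1
  rw [cE_swap C h4 P hP _ (hfl _ (fa_ne i)), cE_swap C h4 P hP _ (hfl _ (fb_ne i)),
    cE_swap C h4 P hP _ (hfl _ (fc_ne i))]
  ring

theorem Wd_sub (c : V → ℝ) (b b' : τ → Fin 4 → Fin 4 → ℝ) (t : τ) (i : Fin 4) :
    C.X.Wd c (fun t j k => b t j k - b' t j k) t i = C.X.Wd c b t i - C.X.Wd c b' t i := by
  unfold Tri.Wd Tri.cbar d1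
  ring

theorem Wd_smul (h8 : PA8) (g : G) (p : σ × σ) (b b' : τ → Fin 4 → Fin 4 → ℝ)
    (hb : ∀ t j k, b' (g • t) j k = b t j k) (t : τ) (i : Fin 4) :
    C.X.Wd (C.cE (g • p)) b' (g • t) i = C.X.Wd (C.cE p) b t i := by
  unfold Tri.Wd Tri.cbar d1
  simp only [C.deck.vx_smul, cE_smul C h8, hb]

theorem cl_smul (g : G) (t : τ) : cl G (g • t) = cl G t := Quotient.sound ⟨g, rfl⟩

/-- the function for the mass transport -/
def FF (A : Set (Quotient (MulAction.orbitRel G τ))) (M : Set σ)
    (κ : σ × σ → τ → Fin 4 → Fin 4 → ℝ) (t : τ) (P : σ × σ) : ℝ :=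
  if cl G t ∈ A then ∑ i, (if cl G (C.X.nb t i) ∈ A then 0 else
    if C.F6 P t i ∧ C.pt P 3 ∈ M then C.X.Wd (C.cE (C.pt P 3, C.pt P 4))
      (fun t j k => κ P t j k - κ P.swap t j k) t i else 0) else 0

theorem FF_ne (A : Set (Quotient (MulAction.orbitRel G τ))) (M : Set σ)
    (κ : σ × σ → τ → Fin 4 → Fin 4 → ℝ) (t : τ) (P : σ × σ) (h : FF C A M κ t P ≠ 0) :
    ∃ i, C.F6 P t i ∧ C.pt P 3 ∈ M := by
  by_contra hcon
  push Not at hcon
  apply h
  unfold FF
  split_ifs with hA
  · apply Finset.sum_eq_zero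
    intro i _
    by_cases hA' : cl G (C.X.nb t i) ∈ A
    · rw [if_pos hA']
    · rw [if_neg hA', if_neg (fun h => hcon i h.1 h.2)]
  · rfl

theorem FF_smul (h4 : PA4) (h8 : PA8) (A : Set (Quotient (MulAction.orbitRel G τ))) (M : Set σ)
    (hM : ∀ (g : G) s, s ∈ M → g • s ∈ M) (κ : σ × σ → τ → Fin 4 → Fin 4 → ℝ)
    (hκ : ∀ (g : G) P t j k, κ (g • P) (g • t) j k = κ P t j k) (g : G) (t : τ) (P : σ × σ) :
    FF C A M κ (g • t) (g • P) = FF C A M κ t P := by
  have hM' : ∀ s, g • s ∈ M ↔ s ∈ M := by
    intro s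
    refine ⟨fun h => ?_, hM g s⟩
    have := hM g⁻¹ _ h
    rwa [inv_smul_smul] at this
  have hp : (C.pt (g • P) 3, C.pt (g • P) 4) = g • (C.pt P 3, C.pt P 4) := by
    rw [pt_smul C h4 h8, pt_smul C h4 h8]
    rfl
  have hW : ∀ i, C.X.Wd (C.cE (C.pt (g • P) 3, C.pt (g • P) 4))
      (fun t j k => κ (g • P) t j k - κ (g • P).swap t j k) (g • t) i =
      C.X.Wd (C.cE (C.pt P 3, C.pt P 4)) (fun t j k => κ P t j k - κ P.swap t j k) t i := by
    intro i
    rw [hp]
    apply Wd_smul C h8
    intro t j k
    show κ (g • P) (g • t) j k - κ (g • P.swap) (g • t) j k = _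
    rw [hκ, hκ]
  unfold FF
  simp only [cl_smul, C.deck.nb_smul, F6_smul C h4 h8, hW]
  simp only [pt_smul C h4 h8, hM']

end H9

open HPt H9 in
/-- H9 -/
theorem prH9 (b3 : PB3) (h8 : PH8) (a4 : PA4) (a8 : PA8) (f2 : PHF2) (f3 : PHF3) : PH9 := by
  intro τ V σ G _ _ _ _ C hac A M hF hM ηS κ hκ hprim
  have hfree : ∀ (g : G) (t : τ), g • t = t → g = 1 := C.deck.free_tet
  have hcoc : Finite (Quotient (MulAction.orbitRel G τ)) := C.deck.cocompact
  -- finiteness for fixed t
  have hfinP : ∀ t, {P : σ × σ | ∃ i, C.F6 P t i}.Finite := by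
    intro t
    apply (f2 C t).subset
    rintro P ⟨i, hi⟩
    refine ⟨?_, F6_ends C a4 P t i hi⟩
    intro h
    have := hi.1
    rw [h] at this
    simp at this
  have hfint : ∀ P : σ × σ, C.S.dist P.1 P.2 = 6 → {t | ∃ i, C.F6 P t i}.Finite := by
    intro P hP
    apply (f3 C hac P (by omega)).subset
    rintro t ⟨i, hi⟩
    exact F6_ends C a4 P t i hi
  have hB := b3 (G := G) (τ := τ) (Y := σ × σ) hfree hcoc (FF C A M κ)
    (fun g t P => FF_smul C a4 a8 A M hM κ hκ g t P) ?_ ?_ ?_ ?_
  · -- conclusion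
    have key : ∀ q : Quotient (MulAction.orbitRel G τ), ∑ᶠ P, FF C A M κ q.out P =
        2 * (if q ∈ A then ∑ i, (if cl G (C.X.nb q.out i) ∈ A then 0 else
          ∑ᶠ P : σ × σ, if C.F6 P q.out i ∧ C.pt P 3 ∈ M then
            C.X.Wd (C.cE (C.pt P 3, C.pt P 4)) (κ P) q.out i else 0) else 0) := by
      intro q
      have hq : cl G q.out = q := Quotient.out_eq q
      by_cases hA : q ∈ A
      · unfold FF
        simp only [hq, hA, if_true]
        rw [finsum_sum_comm, Finset.mul_sum]
        · apply Finset.sum_congr rfl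
          intro i _
          by_cases hA' : cl G (C.X.nb q.out i) ∈ A
          · simp [hA']
          · simp only [hA', if_false]
            have hs1 : (Function.support fun P : σ × σ => if C.F6 P q.out i ∧ C.pt P 3 ∈ M then
                C.X.Wd (C.cE (C.pt P 3, C.pt P 4)) (κ P) q.out i else 0).Finite := by
              apply (hfinP q.out).subset
              intro P hP
              by_contra hcon
              apply hP
              show (if _ then _ else _) = _
              rw [if_neg (fun h => hcon ⟨i, h.1⟩)]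
            have hsw : ∑ᶠ P : σ × σ, (if C.F6 P q.out i ∧ C.pt P 3 ∈ M then
                C.X.Wd (C.cE (C.pt P 3, C.pt P 4)) (κ P) q.out i else 0) =
                ∑ᶠ P : σ × σ, (if C.F6 P q.out i ∧ C.pt P 3 ∈ M then
                - C.X.Wd (C.cE (C.pt P 3, C.pt P 4)) (κ P.swap) q.out i else 0) := by
              rw [← finsum_comp_equiv (Equiv.prodComm σ σ)]
              apply finsum_congr
              intro P
              show (if C.F6 P.swap q.out i ∧ C.pt P.swap 3 ∈ M then
                C.X.Wd (C.cE (C.pt P.swap 3, C.pt P.swap 4)) (κ P.swap) q.out i else 0) = _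
              by_cases h6 : C.F6 P q.out i
              · have h3 : C.pt P.swap 3 = C.pt P 3 := pt_swap C a4 P 3 3 (by rw [h6.1])
                rw [Wd_swap C a4 P q.out i h6]
                simp only [h6, F6_swap C a4 P q.out i h6, h3]
              · have h6' : ¬ C.F6 P.swap q.out i := fun h => h6 (F6_swap C a4 P.swap q.out i h)
                simp [h6, h6']
            have hs2 : (Function.support fun P : σ × σ => if C.F6 P q.out i ∧ C.pt P 3 ∈ M then
                - C.X.Wd (C.cE (C.pt P 3, C.pt P 4)) (κ P.swap) q.out i else 0).Finite := by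
              apply (hfinP q.out).subset
              intro P hP
              by_contra hcon
              apply hP
              show (if _ then _ else _) = _
              rw [if_neg (fun h => hcon ⟨i, h.1⟩)]
            have hsum : ∑ᶠ P : σ × σ, (if C.F6 P q.out i ∧ C.pt P 3 ∈ M then
                C.X.Wd (C.cE (C.pt P 3, C.pt P 4))
                (fun t j k => κ P t j k - κ P.swap t j k) q.out i else 0) =
                ∑ᶠ P : σ × σ, ((if C.F6 P q.out i ∧ C.pt P 3 ∈ M then
                C.X.Wd (C.cE (C.pt P 3, C.pt P 4)) (κ P) q.out i else 0) +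
                (if C.F6 P q.out i ∧ C.pt P 3 ∈ M then
                - C.X.Wd (C.cE (C.pt P 3, C.pt P 4)) (κ P.swap) q.out i else 0)) := by
              apply finsum_congr
              intro P
              by_cases h6 : C.F6 P q.out i ∧ C.pt P 3 ∈ M
              · simp only [h6, if_true, and_self]
                rw [Wd_sub]
                ring
              · simp only [h6, if_false]
                ring
            rw [hsum, finsum_add_distrib hs1 hs2, ← hsw, two_mul]
        · intro i _
          apply (hfinP q.out).subset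
          intro P hP
          by_contra hcon
          apply hP
          show (if _ then _ else _) = _
          by_cases hA' : cl G (C.X.nb q.out i) ∈ A
          · rw [if_pos hA']
          · rw [if_neg hA', if_neg (fun h => hcon ⟨i, h.1⟩)]
      · unfold FF
        simp [hq, hA]
    rw [finsum_congr key, ← mul_finsum] at hB
    simpa using hB
  · intro t P hne g hg
    obtain ⟨i, h6, -⟩ := FF_ne C A M κ t P hne
    have hg1 : g • P.1 = P.1 := congrArg Prod.fst hg
    have hg2 : g • P.2 = P.2 := congrArg Prod.snd hg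
    exact hac P.1 P.2 (by rw [h6.1]; omega) g hg1 hg2
  · intro t
    apply (hfinP t).subset
    intro P hP
    obtain ⟨i, h6, -⟩ := FF_ne C A M κ t P hP
    exact ⟨i, h6⟩
  · intro P
    by_cases hP : C.S.dist P.1 P.2 = 6
    · apply (hfint P hP).subset
      intro t ht
      obtain ⟨i, h6, -⟩ := FF_ne C A M κ t P ht
      exact ⟨i, h6⟩
    · have : (Function.support fun t => FF C A M κ t P) = ∅ := by
        ext t
        simp only [Function.mem_support, Set.mem_empty_iff_false, iff_false, not_not]
        by_contra hne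
        obtain ⟨i, h6, -⟩ := FF_ne C A M κ t P hne
        exact hP h6.1
      rw [this]
      exact Set.finite_empty
  · intro P
    by_cases hP : C.S.dist P.1 P.2 = 6 ∧ C.pt P 3 ∈ M
    · obtain ⟨hP, hPM⟩ := hP
      have hPs : C.S.dist P.swap.1 P.swap.2 = 6 := by
        show C.S.dist P.2 P.1 = 6
        rw [dc]; exact hP
      have h3 : C.pt P.swap 3 = C.pt P 3 := pt_swap C a4 P 3 3 (by rw [hP])
      obtain ⟨k1, k2⟩ := hprim P hP hPM
      obtain ⟨k1', k2'⟩ := hprim P.swap hPs (by rw [h3]; exact hPM)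
      obtain ⟨h, hh⟩ := C.H1 (fun t j k => κ P t j k - κ P.swap t j k)
        ⟨fun t j k => by
            show κ P t k j - κ P.swap t k j = -(κ P t j k - κ P.swap t j k)
            rw [k1.1 t j k, k1'.1 t j k]; ring,
          fun t i j k hj hk => by
            show κ P _ _ _ - κ P.swap _ _ _ = κ P t j k - κ P.swap t j k
            rw [k1.2 t i j k hj hk, k1'.2 t i j k hj hk]⟩
        (fun t i => by
          have e1 := k2 t i
          have e2 := k2' t i
          rw [h3] at e2
          have : d1 (fun t j k => κ P t j k - κ P.swap t j k) t i =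
            d1 (κ P) t i - d1 (κ P.swap) t i := by unfold d1; ring
          rw [this, e1, e2, sub_self])
      have h0 := h8 C hac A M hF P hP hPM h
      rw [← h0]
      apply finsum_congr
      intro t
      have hfun : (fun (t : τ) (j k : Fin 4) => κ P t j k - κ P.swap t j k) =
          fun t j k => h (C.X.vx t k) - h (C.X.vx t j) := by
        funext t j k
        exact hh t j k
      unfold FF
      rw [hfun]
      by_cases hA : cl G t ∈ A
      · simp only [hA, if_true, true_and, hPM, and_true]
        apply Finset.sum_congr rfl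
        intro i _
        by_cases hA' : cl G (C.X.nb t i) ∈ A
        · simp [hA']
        · simp [hA']
      · simp [hA]
    · have : ∀ t, FF C A M κ t P = 0 := by
        intro t
        by_contra hne
        obtain ⟨i, h6, hm⟩ := FF_ne C A M κ t P hne
        exact hP ⟨h6.1, hm⟩
      simp [this]

end

end Pool.Agent.MP_343d73
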