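import Pool.Agent.Work.MP_343d73_gt.Statement

set_option autoImplicit false

/-!
Further core definitions: first cohomology, quotient graphs, the tree of the JSJ tori.
-/

namespace Pool.Agent.MP_343d73

variable {τ V σ : Type}

/-- the first real cohomology vanishes -/
def Tri.H1Zero (X : Tri τ V) : Prop :=
  ∀ b, X.IsC1 b → (∀ t i, d1 b t i = 0) → ∃ h : V → ℝ, ∀ t j k, b t j k = h (X.vx t k) - h (X.vx t j)

/-- the quotient of a graph by a group of automorphisms, as a simple graph -/
def quotGraph (G : Type) [Group G] [MulAction G σ] (S : SimpleGraph σ) :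
    SimpleGraph (Quotient (MulAction.orbitRel G σ)) :=
  SimpleGraph.fromRel (fun p q => ∃ a b, S.Adj a b ∧ Quotient.mk _ a = p ∧ Quotient.mk _ b = q)

/-- `S` is the tree of the JSJ tori: `G` acts on the tree `S` without inversions, the stabiliser of
every edge (torus) is isomorphic to `ℤ × ℤ` and smaller than the stabilisers of its ends (no piece
is a product of a torus and an interval), and every subgroup isomorphic to `ℤ × ℤ` fixes a vertex
(every essential map of a torus can be moved into a piece) -/
structure IsJSJTree (G : Type) [Group G] [MulAction G σ] (S : SimpleGraph σ) : Prop where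
  tree : S.IsTree
  adj_smul : ∀ (g : G) a b, S.Adj a b → S.Adj (g • a) (g • b)
  no_inv : ∀ (g : G) a b, S.Adj a b → ¬ (g • a = b ∧ g • b = a)
  torus : ∀ a b, S.Adj a b → IsZ2 (MulAction.stabilizer G a ⊓ MulAction.stabilizer G b)
  proper : ∀ a b, S.Adj a b → ¬ MulAction.stabilizer G a ≤ MulAction.stabilizer G b
  enclosing : ∀ P : Subgroup G, IsZ2 P → ∃ a : σ, P ≤ MulAction.stabilizer G a

end Pool.Agent.MP_343d73
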