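import Pool.Agent.Work.MP_343d73_gt.Core

set_option autoImplicit false

/-!
Working definitions and the list of items (each item is a Prop `P...`, to be proved as
`theorem ... : P...` in its own file).
-/

namespace Pool.Agent.MP_343d73

open scoped Classical
noncomputable section

variable {τ V σ : Type}

/-- the class of a point in the orbit space -/
abbrev cl (G : Type) {α : Type} [Group G] [MulAction G α] (t : α) :
    Quotient (MulAction.orbitRel G α) := Quotient.mk _ t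

/-- average of a vertex function over face `i` -/
def Tri.cbar (X : Tri τ V) (c : V → ℝ) (t : τ) (i : Fin 4) : ℝ :=
  (c (X.vx t (fa i)) + c (X.vx t (fb i)) + c (X.vx t (fc i))) / 3

/-- the product of `d c` and the 1-cochain `b` on face `i` (up to sign and normalisation) -/
def Tri.Wd (X : Tri τ V) (c : V → ℝ) (b : τ → Fin 4 → Fin 4 → ℝ) (t : τ) (i : Fin 4) : ℝ :=
  (c (X.vx t (fa i)) * b t (fb i) (fc i) + c (X.vx t (fb i)) * b t (fc i) (fa i)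
    + c (X.vx t (fc i)) * b t (fa i) (fb i)) / 2 - X.cbar c t i * d1 b t i / 2

/-- flows: antisymmetric on all faces, in particular zero on boundary faces -/
def Tri.Flow (X : Tri τ V) (e : τ → Fin 4 → ℝ) : Prop :=
  ∀ t i, e (X.nb t i) (X.pm t i i) = - e t i

/-- zero divergence -/
def Closed (e : τ → Fin 4 → ℝ) : Prop := ∀ t, ∑ i, e t i = 0

/-- `r` lies behind `x`, seen from `y` -/
def Beh (S : SimpleGraph σ) (x y r : σ) : Prop := S.dist r y = S.dist r x + S.dist x y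

/-- `r` is on the side of `p.2` of the edge `p` -/
def Far (S : SimpleGraph σ) (p : σ × σ) (r : σ) : Prop := S.dist p.2 r < S.dist p.1 r

/-- the whole situation -/
structure Ctx (τ V σ G : Type) [Group G] [MulAction G τ] [MulAction G V] [MulAction G σ] where
  X : Tri τ V
  S : SimpleGraph σ
  ph : V → σ
  deck : X.IsDeck G
  conn : X.Conn
  H1 : X.H1Zero
  H2 : X.H2Zero
  tree : S.IsTree
  adj_smul : ∀ (g : G) a b, S.Adj a b → S.Adj (g • a) (g • b)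
  torus : ∀ a b, S.Adj a b → IsZ2 (MulAction.stabilizer G a ⊓ MulAction.stabilizer G b)
  proper : ∀ a b, S.Adj a b → ¬ MulAction.stabilizer G a ≤ MulAction.stabilizer G b
  ph_smul : ∀ (g : G) v, ph (g • v) = g • ph v
  ph_bd : ∀ t i j k, X.Bd t i → j ≠ i → k ≠ i → ph (X.vx t j) = ph (X.vx t k)

/-! ### Trees -/

/-- A1 -/
def PA1 : Prop := ∀ {σ : Type} (S : SimpleGraph σ), S.IsTree → ∀ a b r, S.Adj a b →
  S.dist b r = S.dist a r + 1 ∨ S.dist a r = S.dist b r + 1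

/-- A2: separation -/
def PA2 : Prop := ∀ {σ : Type} (S : SimpleGraph σ), S.IsTree → ∀ a b r r', S.Adj a b →
  S.dist b r < S.dist a r → S.dist a r' < S.dist b r' → S.dist r r' = S.dist r b + 1 + S.dist a r'

/-- A3: intervals are finite -/
def PA3 : Prop := ∀ {σ : Type} (S : SimpleGraph σ), S.IsTree → ∀ x y,
  {r | S.dist x r + S.dist r y = S.dist x y}.Finite

/-- A4: points on geodesics -/
def PA4 : Prop := ∀ {σ : Type} (S : SimpleGraph σ), S.IsTree → ∀ x y n, n ≤ S.dist x y →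
  ∃! r, S.dist x r = n ∧ S.dist x r + S.dist r y = S.dist x y

/-- A5: projection to a geodesic -/
def PA5 : Prop := ∀ {σ : Type} (S : SimpleGraph σ), S.IsTree → ∀ u v w,
  ∃ c, S.dist u c + S.dist c v = S.dist u v ∧
    ∀ z, S.dist u z + S.dist z v = S.dist u v → S.dist w z = S.dist w c + S.dist c z

/-- A6: the neighbour towards `r` -/
def PA6 : Prop := ∀ {σ : Type} (S : SimpleGraph σ), S.IsTree → ∀ s r, s ≠ r →
  ∃! b, S.Adj s b ∧ Far S (s, b) r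

/-- A7: two points behind the two ends of an interval -/
def PA7 : Prop := ∀ {σ : Type} (S : SimpleGraph σ), S.IsTree → ∀ x y r r', x ≠ y →
  Beh S x y r → Beh S y x r' → S.dist r r' = S.dist r x + S.dist x y + S.dist y r'

/-- A8: automorphisms preserve distances -/
def PA8 : Prop := ∀ {σ G : Type} [Group G] [MulAction G σ] (S : SimpleGraph σ),
  (∀ (g : G) a b, S.Adj a b → S.Adj (g • a) (g • b)) → ∀ (g : G) a b,
  S.dist (g • a) (g • b) = S.dist a b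

/-- A9: ping-pong -/
def PA9 : Prop := ∀ {σ G : Type} [Group G] [MulAction G σ] (S : SimpleGraph σ), S.IsTree →
  (∀ (g : G) a b, S.Adj a b → S.Adj (g • a) (g • b)) →
  ∀ (y z y1 z1 : σ) (a b : G), S.Adj y y1 → Far S (y, y1) z → S.Adj z z1 → Far S (z, z1) y →
  a • y = y → a • y1 ≠ y1 → b • z = z → b • z1 ≠ z1 →
  ∀ r, Beh S y z r → ∀ m : ℕ, S.dist y ((a * b) ^ m • r) = 2 * m * S.dist y z + S.dist y r ∧
    Beh S y z ((a * b) ^ m • r)

/-! ### Sums over orbits -/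

/-- B1: unfolding -/
def PB1 : Prop := ∀ {G τ : Type} [Group G] [MulAction G τ], (∀ (g : G) (t : τ), g • t = t → g = 1) →
  Finite (Quotient (MulAction.orbitRel G τ)) → ∀ f : τ → ℝ, (Function.support f).Finite →
  ∑ᶠ q : Quotient (MulAction.orbitRel G τ), ∑ᶠ k : G, f (k⁻¹ • q.out) = ∑ᶠ t, f t

/-- B2: cancellation of an invariant antisymmetric function which vanishes on the frontier -/
def PB2 : Prop := ∀ {G τ V : Type} [Group G] [MulAction G τ] [MulAction G V] (X : Tri τ V),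
  X.IsDeck G → ∀ (Ψ : τ → Fin 4 → ℝ), (∀ (g : G) t i, Ψ (g • t) i = Ψ t i) → X.Flow Ψ →
  ∀ A : Set (Quotient (MulAction.orbitRel G τ)),
  (∀ t i, cl G t ∈ A → cl G (X.nb t i) ∉ A → Ψ t i = 0) →
  ∑ᶠ q : Quotient (MulAction.orbitRel G τ), (if q ∈ A then ∑ i, Ψ q.out i else 0) = 0

/-- B3: mass transport -/
def PB3 : Prop := ∀ {G τ Y : Type} [Group G] [MulAction G τ] [MulAction G Y],
  (∀ (g : G) (t : τ), g • t = t → g = 1) → Finite (Quotient (MulAction.orbitRel G τ)) →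
  ∀ F : τ → Y → ℝ, (∀ (g : G) t y, F (g • t) (g • y) = F t y) →
  (∀ t y, F t y ≠ 0 → ∀ g : G, g • y = y → g = 1) →
  (∀ t, (Function.support (F t)).Finite) → (∀ y, (Function.support fun t => F t y).Finite) →
  (∀ y, ∑ᶠ t, F t y = 0) →
  ∑ᶠ q : Quotient (MulAction.orbitRel G τ), ∑ᶠ y, F q.out y = 0

/-- B4: cancellation inside a set of tetrahedra -/
def PB4 : Prop := ∀ {τ V : Type} (X : Tri τ V) (E : τ → Fin 4 → ℝ), X.Flow E →
  {t | ∃ i, E t i ≠ 0}.Finite → ∀ A : Set τ,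
  ∑ᶠ t, ∑ i, (if t ∈ A ∧ X.nb t i ∈ A then E t i else 0) = 0

/-- B5: equivariant choice -/
def PB5 : Prop := ∀ {G τ Z α : Type} [Group G] [MulAction G τ] [MulAction G Z]
  (P : Z → (τ → α) → Prop), (∀ (g : G) z f, P z f → P (g • z) (fun t => f (g⁻¹ • t))) →
  (∀ z, ∃ f, P z f ∧ ∀ g : G, g • z = z → ∀ t, f (g • t) = f t) →
  ∃ F : Z → τ → α, (∀ z, P z (F z)) ∧ ∀ (g : G) z t, F (g • z) (g • t) = F z t

/-! ### Local algebra of cochains -/

/-- C1 -/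
def PC1 : Prop := ∀ {τ V : Type} (X : Tri τ V) (b : τ → Fin 4 → Fin 4 → ℝ), X.IsC1 b →
  (∀ t i, ¬ X.Bd t i → d1 b (X.nb t i) (X.pm t i i) = - d1 b t i) ∧ ∀ t, ∑ i, d1 b t i = 0

/-- C2 -/
def PC2 : Prop := ∀ {τ V : Type} (X : Tri τ V) (b : τ → Fin 4 → Fin 4 → ℝ), X.IsC1 b →
  ∀ (c : V → ℝ) t i, ¬ X.Bd t i → X.Wd c b (X.nb t i) (X.pm t i i) = - X.Wd c b t i

/-- C3 -/
def PC3 : Prop := ∀ {τ V : Type} (X : Tri τ V) (b : τ → Fin 4 → Fin 4 → ℝ), X.IsC1 b →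
  ∀ (c : V → ℝ) t, ∑ i, X.cbar c t i * d1 b t i = ∑ i, X.Wd c b t i

/-- C4 -/
def PC4 : Prop := ∀ {τ V : Type} (X : Tri τ V) (b : τ → Fin 4 → Fin 4 → ℝ), X.IsC1 b →
  ∀ (c : V → ℝ) (x : ℝ) t i, (∀ j, j ≠ i → c (X.vx t j) = x) → X.Wd c b t i = 0

/-- C5: exact 1-cochains -/
def PC5 : Prop := ∀ {τ V : Type} (X : Tri τ V) (c h : V → ℝ) t i,
  X.Wd c (fun t j k => h (X.vx t k) - h (X.vx t j)) t i =
    d1 (fun t j k => (h (X.vx t k) + h (X.vx t j)) * (c (X.vx t k) - c (X.vx t j)) / 2) t i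

/-! ### Definitions in a context -/

section ctx

variable {G : Type} [Group G] [MulAction G τ] [MulAction G V] [MulAction G σ] (C : Ctx τ V σ G)

namespace Ctx

/-- the image of vertex `j` of `t` in the tree -/
def img (t : τ) (j : Fin 4) : σ := C.ph (C.X.vx t j)

/-- indicator of the far side of `p` -/
def cE (p : σ × σ) (v : V) : ℝ := if Far C.S p (C.ph v) then 1 else 0

/-- the flux density of `e` through `p` -/
def Nn (p : σ × σ) (e : τ → Fin 4 → ℝ) (t : τ) : ℝ := ∑ i, C.X.cbar (C.cE p) t i * e t i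

/-- the tetrahedron `t` crosses `p` -/
def crossT (p : σ × σ) (t : τ) : Prop := ∃ j k, Far C.S p (C.img t j) ∧ ¬ Far C.S p (C.img t k)

/-- face `i` of `t` crosses `p` -/
def crossF (p : σ × σ) (t : τ) (i : Fin 4) : Prop :=
  ∃ j k, j ≠ i ∧ k ≠ i ∧ Far C.S p (C.img t j) ∧ ¬ Far C.S p (C.img t k)

/-- `l` is a label of the edge `p`: `p` is the middle edge of the geodesic from `l.1` to `l.2`,
which has length five -/
def Lab (p l : σ × σ) : Prop :=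
  C.S.Adj p.1 p.2 ∧ C.S.dist l.1 p.1 = 2 ∧ C.S.dist p.2 l.2 = 2 ∧ C.S.dist l.1 l.2 = 5

/-- `r` lies behind one of the two ends of `l` -/
def flatR (l : σ × σ) (r : σ) : Prop := Beh C.S l.1 l.2 r ∨ Beh C.S l.2 l.1 r

/-- face `i` of `t` crosses `p` and is flat with label `l` -/
def FF (p l : σ × σ) (t : τ) (i : Fin 4) : Prop :=
  C.Lab p l ∧ C.crossF p t i ∧ ∀ j, j ≠ i → C.flatR l (C.img t j)

/-- the tetrahedron `t` crosses `p` and is flat with label `l` -/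
def FT (p l : σ × σ) (t : τ) : Prop :=
  C.Lab p l ∧ C.crossT p t ∧ ∀ j, C.flatR l (C.img t j)

/-- total flux of a family -/
def Phi {Z : Type} (ed : Z → σ × σ) (pr : Z → Prop) (Θ : Z → τ → Fin 4 → ℝ) : ℝ :=
  ∑ᶠ q : Quotient (MulAction.orbitRel G τ), ∑ᶠ z : Z,
    if pr z then C.Nn (ed z) (Θ z) q.out else 0

/-- the periodisation of a flow -/
def per {Y : Type} [MulAction G Y] (_C : Ctx τ V σ G) (y0 : Y) (ζ : τ → Fin 4 → ℝ) (y : Y) (t : τ)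
    (i : Fin 4) : ℝ := ∑ᶠ k : G, if k • y0 = y then ζ (k⁻¹ • t) i else 0

/-- paths of length five have trivial stabilisers -/
def Acyl : Prop := ∀ x y, 5 ≤ C.S.dist x y → ∀ g : G, g • x = x → g • y = y → g = 1

/-- the family of closed flows of flux one -/
structure EtaFam (η : σ × σ → τ → Fin 4 → ℝ) : Prop where
  flow : ∀ p, C.S.Adj p.1 p.2 → C.X.Flow (η p)
  closed : ∀ p, C.S.Adj p.1 p.2 → Closed (η p)
  equi : ∀ (g : G) p t i, η (g • p) (g • t) i = η p t i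
  swap : ∀ p, C.S.Adj p.1 p.2 → ∀ t i, η p.swap t i = - η p t i
  one : ∀ p, C.S.Adj p.1 p.2 → C.Phi id (fun z => z ∈ MulAction.orbit G p) η = 1

/-- the family of primitives, one for every label -/
structure BetaFam (η : σ × σ → τ → Fin 4 → ℝ) (β : σ × σ → τ → Fin 4 → Fin 4 → ℝ) : Prop where
  c1 : ∀ p l, C.Lab p l → C.X.IsC1 (β l)
  prim : ∀ p l, C.Lab p l → ∀ t i, d1 (β l) t i = η p t i
  equi : ∀ (g : G) l t j k, β (g • l) (g • t) j k = β l t j k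
  swap : ∀ p l, C.Lab p l → ∀ t j k, β l.swap t j k = - β l t j k

/-- the data at a vertex of the quotient graph -/
structure SFam (η : σ × σ → τ → Fin 4 → ℝ) (M : Set σ) (ηS : σ → τ → Fin 4 → ℝ) (lam : σ × σ → ℝ)
    (γ : σ × σ → τ → Fin 4 → Fin 4 → ℝ) : Prop where
  inv : ∀ (g : G) s, s ∈ M → g • s ∈ M
  flow : ∀ s, s ∈ M → C.X.Flow (ηS s)
  closed : ∀ s, s ∈ M → Closed (ηS s)
  equi : ∀ (g : G) s t i, ηS (g • s) (g • t) i = ηS s t i
  lam_inv : ∀ (g : G) p, lam (g • p) = lam p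
  c1 : ∀ p, p.1 ∈ M → C.S.Adj p.1 p.2 → C.X.IsC1 (γ p)
  prim : ∀ p, p.1 ∈ M → C.S.Adj p.1 p.2 → ∀ t i, d1 (γ p) t i = ηS p.1 t i - lam p * η p t i
  gequi : ∀ (g : G) p t j k, γ (g • p) (g • t) j k = γ p t j k

/-- the corrected flux density -/
def om (η : σ × σ → τ → Fin 4 → ℝ) (β : σ × σ → τ → Fin 4 → Fin 4 → ℝ) (p : σ × σ) (t : τ) : ℝ :=
  C.Nn p (η p) t - ∑ i, ∑ᶠ l : σ × σ, if C.FF p l t i then C.X.Wd (C.cE p) (β l) t i else 0

/-- the weight of the tetrahedron `t` for the edge `p` -/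
def wt (η : σ × σ → τ → Fin 4 → ℝ) (β : σ × σ → τ → Fin 4 → Fin 4 → ℝ) (p : σ × σ) (t : τ) : ℝ :=
  ∑ᶠ z : σ × σ, if z ∈ MulAction.orbit G p then C.om η β z t else 0

/-- `s` is a core vertex of `t` -/
def Core (s : σ) (t : τ) : Prop :=
  (∃ j, C.img t j = s) ∨ ∃ b, C.S.Adj s b ∧ C.crossT (s, b) t ∧ ¬ ∃ l, C.FT (s, b) l t

/-- all faces on the frontier of `A` are flat at the vertices of `M` -/
def Front (A : Set (Quotient (MulAction.orbitRel G τ))) (M : Set σ) : Prop :=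
  ∀ t i, cl G t ∈ A → cl G (C.X.nb t i) ∉ A → ∀ s ∈ M, (∀ j, j ≠ i → C.img t j ≠ s) ∧
    ∀ b, C.S.Adj s b → C.crossF (s, b) t i → ∃ l, C.FF (s, b) l t i

/-- the point at distance `n` from `P.1` on the geodesic from `P.1` to `P.2` -/
def pt (P : σ × σ) (n : ℕ) : σ :=
  if h : ∃ r, C.S.dist P.1 r = n ∧ C.S.dist P.1 r + C.S.dist r P.2 = C.S.dist P.1 P.2
  then h.choose else P.1

/-- the face crosses the geodesic `P` of length six and is flat for it -/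
def F6 (P : σ × σ) (t : τ) (i : Fin 4) : Prop :=
  C.S.dist P.1 P.2 = 6 ∧ (∀ j, j ≠ i → C.flatR P (C.img t j)) ∧
  C.crossF (C.pt P 3, C.pt P 4) t i

/-- the frontier sum -/
def RR (M : Set σ) (β : σ × σ → τ → Fin 4 → Fin 4 → ℝ) (lam : σ × σ → ℝ)
    (γ : σ × σ → τ → Fin 4 → Fin 4 → ℝ) (t : τ) (i : Fin 4) : ℝ :=
  ∑ᶠ p : σ × σ, if p.1 ∈ M ∧ C.S.Adj p.1 p.2 then C.X.Wd (C.cE p) (γ p) t i +
    lam p * ∑ᶠ l : σ × σ, (if C.FF p l t i then C.X.Wd (C.cE p) (β l) t i else 0) else 0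

/-- the primitive attached to a geodesic of length six -/
def kap (β : σ × σ → τ → Fin 4 → Fin 4 → ℝ) (lam : σ × σ → ℝ)
    (γ : σ × σ → τ → Fin 4 → Fin 4 → ℝ) (P : σ × σ) (t : τ) (j k : Fin 4) : ℝ :=
  γ (C.pt P 3, C.pt P 4) t j k + lam (C.pt P 3, C.pt P 4) * β (C.pt P 1, P.2) t j k

end Ctx

end ctx

/-! ### Items in a context -/

/-- HF1: finitely many edges cross a tetrahedron -/
def PHF1 : Prop := ∀ {τ V σ G : Type} [Group G] [MulAction G τ] [MulAction G V] [MulAction G σ]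
  (C : Ctx τ V σ G) (t : τ), {p : σ × σ | C.S.Adj p.1 p.2 ∧ C.crossT p t}.Finite

/-- HF2: finitely many geodesics are crossed flatly by a tetrahedron -/
def PHF2 : Prop := ∀ {τ V σ G : Type} [Group G] [MulAction G τ] [MulAction G V] [MulAction G σ]
  (C : Ctx τ V σ G) (t : τ), {P : σ × σ | P.1 ≠ P.2 ∧
    ∃ j k, Beh C.S P.1 P.2 (C.img t j) ∧ Beh C.S P.2 P.1 (C.img t k)}.Finite

/-- HF3: a long geodesic is crossed by finitely many tetrahedra -/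
def PHF3 : Prop := ∀ {τ V σ G : Type} [Group G] [MulAction G τ] [MulAction G V] [MulAction G σ]
  (C : Ctx τ V σ G), C.Acyl → ∀ P : σ × σ, 5 ≤ C.S.dist P.1 P.2 →
  {t | ∃ j k, Beh C.S P.1 P.2 (C.img t j) ∧ Beh C.S P.2 P.1 (C.img t k)}.Finite

/-- D1: potentials on the lattice -/
def PD1 : Prop := ∀ p q : ℤ → ℤ → ℝ, (∀ m n, p m (n + 1) - p m n = q (m + 1) n - q m n) →
  ∃ H : ℤ → ℤ → ℝ, (∀ m n, H (m + 1) n - H m n = p m n) ∧ ∀ m n, H m (n + 1) - H m n = q m n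

/-- D2: potentials on a free `ℤ × ℤ`-set -/
def PD2 : Prop := ∀ {G V : Type} [Group G] [MulAction G V] (a b : G), Commute a b →
  (∀ m n : ℤ, a ^ m * b ^ n = 1 → m = 0 ∧ n = 0) → (∀ (g : G) (v : V), g • v = v → g = 1) →
  ∀ ha hb : V → ℝ, (∀ v, ha (b⁻¹ • v) - ha v = hb (a⁻¹ • v) - hb v) →
  ∃ h : V → ℝ, (∀ v, h (a⁻¹ • v) - h v = ha v) ∧ ∀ v, h (b⁻¹ • v) - h v = hb v

/-- D3: invariant closed flows for a `ℤ × ℤ` subgroup are proportional up to coboundaries -/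
def PD3 : Prop := ∀ {τ V G : Type} [Group G] [MulAction G τ] [MulAction G V]
  (X : Tri τ V), X.IsDeck G → X.Conn → X.H1Zero → X.H2Zero →
  ∀ P : Subgroup G, IsZ2 P → ∀ e e' : τ → Fin 4 → ℝ, X.Flow e → X.Flow e' → Closed e → Closed e' →
  (∀ g ∈ P, ∀ t i, e (g • t) i = e t i) → (∀ g ∈ P, ∀ t i, e' (g • t) i = e' t i) →
  ∃ x y : ℝ, (x ≠ 0 ∨ y ≠ 0) ∧ ∃ γ, X.IsC1 γ ∧ (∀ g ∈ P, ∀ t j k, γ (g • t) j k = γ t j k) ∧
    ∀ t i, d1 γ t i = x * e t i + y * e' t i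

/-- E1: chains between two tetrahedra -/
def PE1 : Prop := ∀ {τ V : Type} (X : Tri τ V), X.Conn → ∀ t t' : τ, ∃ c : τ → Fin 4 → ℝ,
  X.Flow c ∧ {u | ∃ i, c u i ≠ 0}.Finite ∧
  ∀ u, ∑ i, c u i = (if u = t then 1 else 0) - (if u = t' then 1 else 0)

/-- E2: hyperbolic elements -/
def PE2 : Prop := ∀ {σ G : Type} [Group G] [MulAction G σ] (S : SimpleGraph σ), S.IsTree →
  (∀ (g : G) a b, S.Adj a b → S.Adj (g • a) (g • b)) → ∀ a b, S.Adj a b →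
  ¬ MulAction.stabilizer G a ≤ MulAction.stabilizer G b →
  ¬ MulAction.stabilizer G b ≤ MulAction.stabilizer G a →
  ∃ h : G, ∀ (r : σ) (K : ℕ), ∃ n0 : ℕ, ∀ n ≥ n0, K ≤ S.dist a (h ^ n • r) ∧
    Far S (a, b) (h ^ n • r)

/-- E3: rays going to infinity beyond the edge `p` -/
def PE3 : Prop := ∀ {τ V σ G : Type} [Group G] [MulAction G τ] [MulAction G V] [MulAction G σ]
  (C : Ctx τ V σ G) (p : σ × σ), C.S.Adj p.1 p.2 → ∀ t0 : τ, ∃ ζ : τ → Fin 4 → ℝ,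
  C.X.Flow ζ ∧ (∀ u, ∑ i, ζ u i = if u = t0 then 1 else 0) ∧
  (∀ K : ℕ, {t | (∃ i, ζ t i ≠ 0) ∧ ∃ j, C.S.dist p.1 (C.img t j) ≤ K}.Finite) ∧
  {t | (∃ i, ζ t i ≠ 0) ∧ ∃ j, ¬ Far C.S p (C.img t j)}.Finite

/-- E4: the flux of a ray -/
def PE4 : Prop := ∀ {τ V σ G : Type} [Group G] [MulAction G τ] [MulAction G V] [MulAction G σ]
  (C : Ctx τ V σ G) (ζ : τ → Fin 4 → ℝ) (t0 : τ) (p : σ × σ) (x : ℝ), C.X.Flow ζ →
  (∀ u, ∑ i, ζ u i = if u = t0 then 1 else 0) →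
  {t | (∃ i, ζ t i ≠ 0) ∧ ∃ j, C.cE p (C.X.vx t j) ≠ x}.Finite →
  (Function.support (C.Nn p ζ)).Finite ∧ ∑ᶠ t, C.Nn p ζ t = x

/-- E5: periodisation -/
def PE5 : Prop := ∀ {τ V σ G : Type} [Group G] [MulAction G τ] [MulAction G V] [MulAction G σ]
  (C : Ctx τ V σ G) {Y : Type} [MulAction G Y] (y0 : Y) (ζ : τ → Fin 4 → ℝ), C.X.Flow ζ →
  Closed ζ → (∀ t, {k : G | k • y0 = y0 ∧ ∃ i, ζ (k⁻¹ • t) i ≠ 0}.Finite) →
  (∀ y, C.X.Flow (C.per y0 ζ y)) ∧ (∀ y, Closed (C.per y0 ζ y)) ∧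
  ∀ (g : G) y t i, C.per y0 ζ (g • y) (g • t) i = C.per y0 ζ y t i

/-- E6: total flux of a periodised flow -/
def PE6 : Prop := ∀ {τ V σ G : Type} [Group G] [MulAction G τ] [MulAction G V] [MulAction G σ]
  (C : Ctx τ V σ G) {Y Z : Type} [MulAction G Y] [MulAction G Z] (y0 : Y) (ζ : τ → Fin 4 → ℝ)
  (Yf : Z → Y) (ed : Z → σ × σ) (pr : Z → Prop), C.X.Flow ζ → Closed ζ →
  (∀ t, {k : G | k • y0 = y0 ∧ ∃ i, ζ (k⁻¹ • t) i ≠ 0}.Finite) →
  (∀ (g : G) z, Yf (g • z) = g • Yf z) → (∀ (g : G) z, ed (g • z) = g • ed z) →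
  (∀ (g : G) z, pr z → pr (g • z)) →
  {tz : τ × Z | pr tz.2 ∧ Yf tz.2 = y0 ∧ (∃ i, ζ tz.1 i ≠ 0) ∧ C.crossT (ed tz.2) tz.1}.Finite →
  C.Phi ed pr (fun z => C.per y0 ζ (Yf z)) =
    ∑ᶠ z : Z, if pr z ∧ Yf z = y0 then ∑ᶠ t, C.Nn (ed z) ζ t else 0

/-- E7: the total flux of an exact family vanishes -/
def PE7 : Prop := ∀ {τ V σ G : Type} [Group G] [MulAction G τ] [MulAction G V] [MulAction G σ]
  (C : Ctx τ V σ G) {Z : Type} [MulAction G Z] (ed : Z → σ × σ) (pr : Z → Prop),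
  (∀ (g : G) z, ed (g • z) = g • ed z) → (∀ (g : G) z, pr z → pr (g • z)) →
  (∀ t, {z | pr z ∧ C.crossT (ed z) t}.Finite) → ∀ γ : Z → τ → Fin 4 → Fin 4 → ℝ,
  (∀ z, pr z → C.X.IsC1 (γ z)) → (∀ (g : G) z t j k, γ (g • z) (g • t) j k = γ z t j k) →
  C.Phi ed pr (fun z t i => d1 (γ z) t i) = 0

/-- E8: the total flux is linear -/
def PE8 : Prop := ∀ {τ V σ G : Type} [Group G] [MulAction G τ] [MulAction G V] [MulAction G σ]
  (C : Ctx τ V σ G) {Z : Type} (ed : Z → σ × σ) (pr : Z → Prop),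
  (∀ t, {z | pr z ∧ C.crossT (ed z) t}.Finite) → ∀ Θ Θ' : Z → τ → Fin 4 → ℝ,
  (∀ z, pr z → Closed (Θ z)) → (∀ z, pr z → Closed (Θ' z)) → ∀ x y : ℝ,
  C.Phi ed pr (fun z t i => x * Θ z t i + y * Θ' z t i) = x * C.Phi ed pr Θ + y * C.Phi ed pr Θ'

/-- F1: the equivariant map to the tree -/
def PF1 : Prop := ∀ {τ V σ G : Type} [Group G] [MulAction G τ] [MulAction G V] [MulAction G σ]
  (X : Tri τ V), X.IsDeck G → X.ToralBoundary G → Nonempty σ →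
  (∀ P : Subgroup G, IsZ2 P → ∃ a : σ, P ≤ MulAction.stabilizer G a) →
  ∃ ph : V → σ, (∀ (g : G) v, ph (g • v) = g • ph v) ∧
    ∀ t i j k, X.Bd t i → j ≠ i → k ≠ i → ph (X.vx t j) = ph (X.vx t k)

/-- F2: equivariant families of closed flows of flux one, before antisymmetrisation -/
def PF2 : Prop := ∀ {τ V σ G : Type} [Group G] [MulAction G τ] [MulAction G V] [MulAction G σ]
  (C : Ctx τ V σ G), ∃ η : σ × σ → τ → Fin 4 → ℝ, (∀ p, C.S.Adj p.1 p.2 → C.X.Flow (η p)) ∧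
  (∀ p, C.S.Adj p.1 p.2 → Closed (η p)) ∧ (∀ (g : G) p t i, η (g • p) (g • t) i = η p t i) ∧
  ∀ p, C.S.Adj p.1 p.2 → C.Phi id (fun z => z ∈ MulAction.orbit G p) η = 1

/-- F3: existence of the family of flows -/
def PF3 : Prop := ∀ {τ V σ G : Type} [Group G] [MulAction G τ] [MulAction G V] [MulAction G σ]
  (C : Ctx τ V σ G), ∃ η : σ × σ → τ → Fin 4 → ℝ, C.EtaFam η

/-- F4: existence of the family of primitives -/
def PF4 : Prop := ∀ {τ V σ G : Type} [Group G] [MulAction G τ] [MulAction G V] [MulAction G σ]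
  (C : Ctx τ V σ G), C.Acyl → ∀ η, C.EtaFam η → ∃ β, C.BetaFam η β

/-- F5: comparison of closed flows at a vertex with the flows of flux one -/
def PF5 : Prop := ∀ {τ V σ G : Type} [Group G] [MulAction G τ] [MulAction G V] [MulAction G σ]
  (C : Ctx τ V σ G) (η : σ × σ → τ → Fin 4 → ℝ), C.EtaFam η → ∀ (M : Set σ)
  (ηS : σ → τ → Fin 4 → ℝ) (lam : σ × σ → ℝ), (∀ (g : G) s, s ∈ M → g • s ∈ M) →
  (∀ s, s ∈ M → C.X.Flow (ηS s)) → (∀ s, s ∈ M → Closed (ηS s)) →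
  (∀ (g : G) s t i, ηS (g • s) (g • t) i = ηS s t i) → (∀ (g : G) p, lam (g • p) = lam p) →
  (∀ p, p.1 ∈ M → C.S.Adj p.1 p.2 →
    C.Phi id (fun z => z ∈ MulAction.orbit G p) (fun z => ηS z.1) = lam p) →
  ∃ γ, C.SFam η M ηS lam γ

/-- F6: flows at a vertex from one edge to another one -/
def PF6 : Prop := ∀ {τ V σ G : Type} [Group G] [MulAction G τ] [MulAction G V] [MulAction G σ]
  (C : Ctx τ V σ G) (s0 b1 b2 : σ), C.S.Adj s0 b1 → C.S.Adj s0 b2 → b1 ≠ b2 →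
  ∃ ηS : σ → τ → Fin 4 → ℝ, (∀ s, C.X.Flow (ηS s)) ∧ (∀ s, Closed (ηS s)) ∧
  (∀ (g : G) s t i, ηS (g • s) (g • t) i = ηS s t i) ∧
  ∀ p, p.1 ∈ MulAction.orbit G s0 → C.S.Adj p.1 p.2 →
    C.Phi id (fun z => z ∈ MulAction.orbit G p) (fun z => ηS z.1) =
      (if p ∈ MulAction.orbit G (s0, b1) then 1 else 0) -
      (if p ∈ MulAction.orbit G (s0, b2) then 1 else 0)

/-- H1: vanishing of the corrected flux density -/
def PH1 : Prop := ∀ {τ V σ G : Type} [Group G] [MulAction G τ] [MulAction G V] [MulAction G σ]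
  (C : Ctx τ V σ G) (η β), C.EtaFam η → C.BetaFam η β → ∀ p t, C.S.Adj p.1 p.2 →
  (¬ C.crossT p t → C.om η β p t = 0) ∧ ∀ l, C.FT p l t → C.om η β p t = 0

/-- H2: equivariance and symmetry -/
def PH2 : Prop := ∀ {τ V σ G : Type} [Group G] [MulAction G τ] [MulAction G V] [MulAction G σ]
  (C : Ctx τ V σ G) (η β), C.EtaFam η → C.BetaFam η β →
  (∀ (g : G) p t, C.om η β (g • p) (g • t) = C.om η β p t) ∧
  (∀ p t, C.S.Adj p.1 p.2 → C.om η β p.swap t = C.om η β p t) ∧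
  (∀ p t, C.S.Adj p.1 p.2 → C.wt η β p.swap t = C.wt η β p t) ∧
  (∀ (g : G) p t, C.wt η β (g • p) t = C.wt η β p t) ∧
  ∀ (g : G) p t, C.wt η β p (g • t) = C.wt η β p t

/-- H3: the weights sum to one -/
def PH3 : Prop := ∀ {τ V σ G : Type} [Group G] [MulAction G τ] [MulAction G V] [MulAction G σ]
  (C : Ctx τ V σ G) (η β), C.EtaFam η → C.BetaFam η β → ∀ p, C.S.Adj p.1 p.2 →
  ∑ᶠ q : Quotient (MulAction.orbitRel G τ), C.wt η β p q.out = 1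

/-- H4: the main term at a vertex vanishes -/
def PH4 : Prop := ∀ {τ V σ G : Type} [Group G] [MulAction G τ] [MulAction G V] [MulAction G σ]
  (C : Ctx τ V σ G) (η M ηS lam γ), C.SFam η M ηS lam γ → ∀ A, C.Front A M →
  ∑ᶠ q : Quotient (MulAction.orbitRel G τ), (if q ∈ A then
    ∑ᶠ p : σ × σ, (if p.1 ∈ M ∧ C.S.Adj p.1 p.2 then C.Nn p (ηS p.1) q.out else 0) else 0) = 0

/-- H5: pointwise decomposition -/
def PH5 : Prop := ∀ {τ V σ G : Type} [Group G] [MulAction G τ] [MulAction G V] [MulAction G σ]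
  (C : Ctx τ V σ G) (η β M ηS lam γ), C.EtaFam η → C.BetaFam η β → C.SFam η M ηS lam γ → ∀ t,
  ∑ᶠ p : σ × σ, (if p.1 ∈ M ∧ C.S.Adj p.1 p.2 then lam p * C.om η β p t else 0) =
  ∑ᶠ p : σ × σ, (if p.1 ∈ M ∧ C.S.Adj p.1 p.2 then C.Nn p (ηS p.1) t else 0) -
    ∑ i, C.RR M β lam γ t i

/-- H6: the frontier function is antisymmetric and invariant -/
def PH6 : Prop := ∀ {τ V σ G : Type} [Group G] [MulAction G τ] [MulAction G V] [MulAction G σ]
  (C : Ctx τ V σ G) (η β M ηS lam γ), C.EtaFam η → C.BetaFam η β → C.SFam η M ηS lam γ →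
  C.X.Flow (C.RR M β lam γ) ∧ ∀ (g : G) t i, C.RR M β lam γ (g • t) i = C.RR M β lam γ t i

/-- H7: the frontier function in terms of geodesics of length six -/
def PH7 : Prop := ∀ {τ V σ G : Type} [Group G] [MulAction G τ] [MulAction G V] [MulAction G σ]
  (C : Ctx τ V σ G) (η β M ηS lam γ), C.EtaFam η → C.BetaFam η β → C.SFam η M ηS lam γ →
  ∀ A, C.Front A M → ∀ t i, cl G t ∈ A → cl G (C.X.nb t i) ∉ A →
  C.RR M β lam γ t i = ∑ᶠ P : σ × σ, if C.F6 P t i ∧ C.pt P 3 ∈ M then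
    C.X.Wd (C.cE (C.pt P 3, C.pt P 4)) (C.kap β lam γ P) t i else 0

/-- H8: the sum over the frontier faces which are flat for one geodesic vanishes -/
def PH8 : Prop := ∀ {τ V σ G : Type} [Group G] [MulAction G τ] [MulAction G V] [MulAction G σ]
  (C : Ctx τ V σ G), C.Acyl → ∀ A M, C.Front A M → ∀ P : σ × σ, C.S.dist P.1 P.2 = 6 →
  C.pt P 3 ∈ M → ∀ h : V → ℝ, ∑ᶠ t, ∑ i, (if cl G t ∈ A ∧ cl G (C.X.nb t i) ∉ A ∧ C.F6 P t i then
    C.X.Wd (C.cE (C.pt P 3, C.pt P 4)) (fun t j k => h (C.X.vx t k) - h (C.X.vx t j)) t i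
      else 0) = 0

/-- H9: the sum over all frontier faces of an equivariant family of primitives vanishes -/
def PH9 : Prop := ∀ {τ V σ G : Type} [Group G] [MulAction G τ] [MulAction G V] [MulAction G σ]
  (C : Ctx τ V σ G), C.Acyl → ∀ A M, C.Front A M → (∀ (g : G) s, s ∈ M → g • s ∈ M) →
  ∀ (ηS : σ → τ → Fin 4 → ℝ) (κ : σ × σ → τ → Fin 4 → Fin 4 → ℝ),
  (∀ (g : G) P t j k, κ (g • P) (g • t) j k = κ P t j k) →
  (∀ P : σ × σ, C.S.dist P.1 P.2 = 6 → C.pt P 3 ∈ M → C.X.IsC1 (κ P) ∧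
    ∀ t i, d1 (κ P) t i = ηS (C.pt P 3) t i) →
  ∑ᶠ q : Quotient (MulAction.orbitRel G τ), (if q ∈ A then
    ∑ i, (if cl G (C.X.nb q.out i) ∈ A then 0 else
      ∑ᶠ P : σ × σ, if C.F6 P q.out i ∧ C.pt P 3 ∈ M then
        C.X.Wd (C.cE (C.pt P 3, C.pt P 4)) (κ P) q.out i else 0) else 0) = 0

/-- H10: constancy of the weight of `A` at a vertex which is flat on the frontier of `A` -/
def PH10 : Prop := ∀ {τ V σ G : Type} [Group G] [MulAction G τ] [MulAction G V] [MulAction G σ]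
  (C : Ctx τ V σ G), C.Acyl → ∀ (η β), C.EtaFam η → C.BetaFam η β → ∀ s0 b1 b2,
  C.S.Adj s0 b1 → C.S.Adj s0 b2 → ∀ A, C.Front A (MulAction.orbit G s0) →
  ∑ᶠ q : Quotient (MulAction.orbitRel G τ), (if q ∈ A then C.wt η β (s0, b1) q.out else 0) =
  ∑ᶠ q : Quotient (MulAction.orbitRel G τ), (if q ∈ A then C.wt η β (s0, b2) q.out else 0)

/-- I1: a tetrahedron has at most 320 core vertices -/
def PI1 : Prop := ∀ {τ V σ G : Type} [Group G] [MulAction G τ] [MulAction G V] [MulAction G σ]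
  (C : Ctx τ V σ G) (t : τ), {s | C.Core s t}.Finite ∧ {s | C.Core s t}.ncard ≤ 320

/-- I2: the weights in terms of core vertices -/
def PI2 : Prop := ∀ {τ V σ G : Type} [Group G] [MulAction G τ] [MulAction G V] [MulAction G σ]
  (C : Ctx τ V σ G) (η β), C.EtaFam η → C.BetaFam η β →
  (∀ (g : G) s t, C.Core (g • s) (g • t) ↔ C.Core s t) ∧
  (∀ p t, C.S.Adj p.1 p.2 → ¬ C.Core p.1 t ∨ ¬ C.Core p.2 t → C.om η β p t = 0) ∧
  ∀ p t, C.S.Adj p.1 p.2 → ((∀ g : G, ¬ C.Core (g • p.1) t) ∨ ∀ g : G, ¬ C.Core (g • p.2) t) →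
    C.wt η β p t = 0

/-- I3: the frontier condition in terms of core vertices -/
def PI3 : Prop := ∀ {τ V σ G : Type} [Group G] [MulAction G τ] [MulAction G V] [MulAction G σ]
  (C : Ctx τ V σ G) (s0 : σ) (A : Set (Quotient (MulAction.orbitRel G τ))),
  (∀ q ∈ A, ∀ q' ∉ A, (C.X.dualGraph G).Adj q q' →
    (∀ g : G, ¬ C.Core (g • s0) q.out) ∨ ∀ g : G, ¬ C.Core (g • s0) q'.out) →
  C.Front A (MulAction.orbit G s0)

/-! ### Graph theory -/

/-- J1: running intersection property gives a tree decomposition -/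
def PJ1 : Prop := ∀ {Q : Type} (D : SimpleGraph Q) (k n : ℕ) (B : Fin n → Finset Q), 0 < n →
  (∀ t, (B t).card ≤ k + 1) → (∀ q, ∃ t, q ∈ B t) →
  (∀ q q', D.Adj q q' → ∃ t, q ∈ B t ∧ q' ∈ B t) →
  (∀ i : Fin n, 0 < i.val → ∃ p < i, ∀ q ∈ B i, (∃ j < i, q ∈ B j) → q ∈ B p) →
  TreewidthLE D k

/-- J2: balanced separators give small treewidth -/
def PJ2 : Prop := ∀ {Q : Type} [Finite Q] (D : SimpleGraph Q) (N : ℕ), Nonempty Q →
  (∀ W : Finset Q, ∃ X : Finset Q, X.card ≤ N ∧ ∀ K : Set Q, (∀ q ∈ K, q ∉ X) →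
    (D.induce K).Preconnected → 2 * ((W : Set Q) ∩ K).ncard ≤ W.card) →
  TreewidthLE D (4 * N)

/-- J3: Euler characteristic of a tree -/
def PJ3 : Prop := ∀ (n : ℕ) (R : SimpleGraph (Fin n)), R.IsTree → ∀ F : Fin n → Fin n → ℝ,
  (∀ t, ∑ t', (if R.Adj t t' then F t t' else 0) = 1) →
  (∀ t t', R.Adj t t' → F t t' + F t' t = 1) → False

/-- the set of all `q` whose bags lie on the side of `t'` of the edge `t t'` -/
def sideSet {Q : Type} {n : ℕ} (R : SimpleGraph (Fin n)) (B : Fin n → Finset Q) (t t' : Fin n) :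
    Set Q := {q | ∀ u, q ∈ B u → R.dist t' u < R.dist t u}

/-- J4: the sides of a tree decomposition -/
def PJ4 : Prop := ∀ {Q : Type} (D : SimpleGraph Q) (n : ℕ) (R : SimpleGraph (Fin n))
  (B : Fin n → Finset Q), R.IsTree → (∀ q, ∃ t, q ∈ B t) →
  (∀ q q', D.Adj q q' → ∃ t, q ∈ B t ∧ q' ∈ B t) →
  (∀ q, (R.induce {t | q ∈ B t}).Preconnected) →
  (∀ t q, q ∉ B t → ∃! t', R.Adj t t' ∧ q ∈ sideSet R B t t') ∧
  (∀ t t' q, R.Adj t t' → q ∈ B t → q ∉ sideSet R B t t') ∧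
  (∀ t t' q, R.Adj t t' → ¬ (q ∈ B t ∧ q ∈ B t') →
    ((q ∈ sideSet R B t t' ∧ q ∉ sideSet R B t' t) ∨
      (q ∉ sideSet R B t t' ∧ q ∈ sideSet R B t' t))) ∧
  ∀ t t' q q', R.Adj t t' → D.Adj q q' → q ∈ sideSet R B t t' → q' ∉ sideSet R B t t' →
    q' ∈ B t ∧ q' ∈ B t'

/-- J5: the graph theoretic conclusion -/
def PJ5 : Prop := ∀ {Q U E : Type} [Finite Q] (D : SimpleGraph Q) (Γ : SimpleGraph U)
  (inc : E → U → Prop) (w : E → Q → ℝ) (Xp : Q → Set U) (N0 k : ℕ),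
  (∀ e v q, inc e v → v ∉ Xp q → w e q = 0) → (∀ e, ∑ᶠ q, w e q = 1) →
  (∀ (v : U) (A : Set Q), (∀ q ∈ A, ∀ q' ∉ A, D.Adj q q' → v ∉ Xp q ∨ v ∉ Xp q') →
    ∀ e e', inc e v → inc e' v →
    ∑ᶠ q, (if q ∈ A then w e q else 0) = ∑ᶠ q, (if q ∈ A then w e' q else 0)) →
  (∀ v v', Γ.Adj v v' → ∃ e, inc e v ∧ inc e v') → (∀ v, ∃ e, inc e v) → Nonempty U →
  (∀ q, (Xp q).Finite ∧ (Xp q).ncard ≤ N0) → TreewidthLE D k →
  TreewidthLE Γ (4 * (N0 * (k + 1)))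

/-! ### Acylindricity -/

/-- K1: a subgroup `ℤ × ℤ` of `ℤ × ℤ` has finite index -/
def PK1 : Prop := ∀ {G : Type} [Group G] (P Q : Subgroup G), IsZ2 P → IsZ2 Q → P ≤ Q →
  (P.subgroupOf Q).FiniteIndex

/-- K2: edge groups of different edges at a vertex with three neighbours -/
def PK2 : Prop := ∀ {τ V σ G : Type} [Group G] [MulAction G τ] [MulAction G V] [MulAction G σ]
  (C : Ctx τ V σ G) (s b1 b2 b3 : σ), C.S.Adj s b1 → C.S.Adj s b2 → C.S.Adj s b3 → b1 ≠ b2 →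
  b1 ≠ b3 → b2 ≠ b3 → ¬ MulAction.stabilizer G s ⊓ MulAction.stabilizer G b1 ≤
    MulAction.stabilizer G b2

/-- K3: a nontrivial element does not fix a geodesic with two branching points inside -/
def PK3 : Prop := ∀ {σ G : Type} [Group G] [MulAction G σ] (S : SimpleGraph σ),
  IsJSJTree G S → ∀ (x0 y y1 z z1 x1 : σ), S.Adj x0 y → S.Adj y y1 → Far S (y, y1) z →
  ¬ Far S (y, y1) x0 → S.Adj z x1 → S.Adj z z1 → Far S (z, z1) y → ¬ Far S (z, z1) x1 →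
  ¬ MulAction.stabilizer G y ⊓ MulAction.stabilizer G x0 ≤ MulAction.stabilizer G y1 →
  ¬ MulAction.stabilizer G z ⊓ MulAction.stabilizer G x1 ≤ MulAction.stabilizer G z1 →
  ∀ c : G, c • x0 = x0 → c • y = y → c • z = z → c • x1 = x1 → c = 1

/-- K4: acylindricity, if no two adjacent vertices have valence two -/
def PK4 : Prop := ∀ {σ G : Type} [Group G] [MulAction G σ] (S : SimpleGraph σ),
  IsJSJTree G S → (∀ (s b1 b2 b3 : σ), S.Adj s b1 → S.Adj s b2 → S.Adj s b3 → b1 ≠ b2 →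
    b1 ≠ b3 → b2 ≠ b3 → ¬ MulAction.stabilizer G s ⊓ MulAction.stabilizer G b1 ≤
      MulAction.stabilizer G b2) →
  (∀ u v, S.Adj u v → (∃ b1 b2 b3, S.Adj u b1 ∧ S.Adj u b2 ∧ S.Adj u b3 ∧ b1 ≠ b2 ∧ b1 ≠ b3 ∧
    b2 ≠ b3) ∨ (∃ b1 b2 b3, S.Adj v b1 ∧ S.Adj v b2 ∧ S.Adj v b3 ∧ b1 ≠ b2 ∧ b1 ≠ b3 ∧
    b2 ≠ b3)) →
  ∀ x y, 5 ≤ S.dist x y → ∀ g : G, g • x = x → g • y = y → g = 1

/-- K5: two adjacent vertices of valence two -/
def PK5 : Prop := ∀ {σ G : Type} [Group G] [MulAction G σ] (S : SimpleGraph σ),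
  IsJSJTree G S → ∀ u v, S.Adj u v →
  (¬ ∃ b1 b2 b3, S.Adj u b1 ∧ S.Adj u b2 ∧ S.Adj u b3 ∧ b1 ≠ b2 ∧ b1 ≠ b3 ∧ b2 ≠ b3) →
  (¬ ∃ b1 b2 b3, S.Adj v b1 ∧ S.Adj v b2 ∧ S.Adj v b3 ∧ b1 ≠ b2 ∧ b1 ≠ b3 ∧ b2 ≠ b3) →
  ∀ q : Quotient (MulAction.orbitRel G σ), q = cl G u ∨ q = cl G v

/-- the final statement -/
def Final : Prop := ∀ {τ V σ G : Type} [Group G] [MulAction G τ] [MulAction G V] [MulAction G σ]
  (X : Tri τ V) (S : SimpleGraph σ), X.IsDeck G → X.Conn → X.H1Zero → X.H2Zero →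
  X.ToralBoundary G → IsJSJTree G S → ∀ k, TreewidthLE (X.dualGraph G) k →
  TreewidthLE (quotGraph G S) (1280 * (k + 1))


end

end Pool.Agent.MP_343d73
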