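import Pool.Agent.Work.MP_343d73_gt.Core2
import Pool.Agent.Work.MP_343d73_gt.Bd.B04

set_option autoImplicit false

namespace Pool.Agent.MP_343d73

namespace R5

variable {τ V G : Type} [Group G] [MulAction G τ] [MulAction G V] {X : Tri τ V}
  {D : Set (τ × Fin 4)}

theorem step_smul (hX : X.IsDeck G) (hD : X.IsJSJ G D) (g : G) (t t' : τ)
    (h : X.PieceStep D t t') : X.PieceStep D (g • t) (g • t') := by
  obtain ⟨i, hi, rfl⟩ := h
  refine ⟨i, fun h1 => hi ?_, hX.nb_smul g t i⟩
  have h2 := hD.inv g⁻¹ _ _ h1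
  rwa [inv_smul_smul] at h2

/-- the action on the pieces -/
@[reducible] def act (hX : X.IsDeck G) (hD : X.IsJSJ G D) : MulAction G (Quot (X.PieceStep D)) where
  smul g := Quot.map (g • ·) (step_smul hX hD g)
  one_smul := by
    rintro ⟨t⟩
    exact congrArg (Quot.mk _) (one_smul G t)
  mul_smul := by
    rintro g h ⟨t⟩
    exact congrArg (Quot.mk _) (mul_smul g h t)

theorem act_mk (hX : X.IsDeck G) (hD : X.IsJSJ G D) (g : G) (t : τ) :
    letI := act hX hD
    g • (Quot.mk (X.PieceStep D) t) = Quot.mk _ (g • t) := rfl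

theorem mk_eq {t t' : τ} : Quot.mk (X.PieceStep D) t = Quot.mk _ t' ↔ X.PieceRel D t t' :=
  Quot.eq

theorem adj_exists (hS : X.IsSurface D) {a b : Quot (X.PieceStep D)}
    (h : (X.treeGraph D).Adj a b) : ∃ t i, (t, i) ∈ D ∧ a = Quot.mk _ t ∧
      b = Quot.mk _ (X.nb t i) := by
  unfold Tri.treeGraph at h
  rw [SimpleGraph.fromRel_adj] at h
  obtain ⟨-, ⟨t, i, hD, h1, h2⟩ | ⟨t, i, hD, h1, h2⟩⟩ := h
  · exact ⟨t, i, hD, h1.symm, h2.symm⟩
  · refine ⟨X.nb t i, X.pm t i i, hS.glue t i hD, h2.symm, ?_⟩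
    rw [X.nb_nb]
    exact h1.symm

theorem fix_iff (h2 : PR2) (h4 : PR4) (hX : X.IsDeck G) (hsc : X.SimplyConn)
    (hD : X.IsJSJ G D) {t : τ} {i : Fin 4} (hti : (t, i) ∈ D) (g : G) :
    (X.PieceRel D t (g • t) ∧ X.PieceRel D (X.nb t i) (g • X.nb t i)) ↔
      X.SideRel D (t, i) (g • t, i) := by
  constructor
  · rintro ⟨ha, hb⟩
    rw [← hX.nb_smul] at hb
    exact (h4 X D hsc hD.surf).2.2 t i (g • t) i hti (hD.inv g t i hti) ha hb
  · intro h
    obtain ⟨-, h5, h6, -⟩ := (h2 X D hD.surf).1 (t, i) (g • t, i) hti h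
    refine ⟨h5, ?_⟩
    rw [← hX.nb_smul]
    exact h6

/-- the tree of the tori of `X` with the action of `G`, and its relation with the pieces -/
theorem pre (h2 : PR2) (h4 : PR4) (hX : X.IsDeck G) (hsc : X.SimplyConn) (hD : X.IsJSJ G D)
    (hproper : ∀ t i, (t, i) ∈ D → ∃ g : G, X.PieceRel D t (g • t) ∧
      ¬ X.SideRel D (t, i) (g • t, i)) :
    letI := act hX hD
    PreJSJ G (X.treeGraph D) := by
  obtain ⟨htree, hadj, huniq⟩ := h4 X D hsc hD.surf
  let _ := act hX hD
  have hmk : ∀ (g : G) (t : τ), g • (Quot.mk (X.PieceStep D) t) = Quot.mk _ (g • t) :=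
    act_mk hX hD
  have hstab : ∀ (g : G) (t : τ), g ∈ MulAction.stabilizer G (Quot.mk (X.PieceStep D) t) ↔
      X.PieceRel D t (g • t) := by
    intro g t
    rw [MulAction.mem_stabilizer_iff, hmk, eq_comm, mk_eq]
  refine ⟨htree, ?_, ?_, ?_, ?_⟩
  · intro g a b h
    obtain ⟨t, i, hti, rfl, rfl⟩ := adj_exists hD.surf h
    rw [hmk, hmk, ← hX.nb_smul]
    exact hadj _ _ (hD.inv g t i hti)
  · rintro g a b h ⟨h5, h6⟩
    obtain ⟨t, i, hti, rfl, rfl⟩ := adj_exists hD.surf h
    rw [hmk] at h5 h6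
    refine hD.two_sided t i hti g (huniq (X.nb t i) (X.pm t i i) (g • t) i (hD.surf.glue t i hti)
      (hD.inv g t i hti) (mk_eq.mp h5.symm) ?_)
    rw [X.nb_nb, hX.nb_smul]
    exact mk_eq.mp h6.symm
  · intro a b h
    obtain ⟨t, i, hti, rfl, rfl⟩ := adj_exists hD.surf h
    obtain ⟨P, hP, hP2⟩ := hD.torus t i hti
    have h5 : MulAction.stabilizer G (Quot.mk (X.PieceStep D) t) ⊓
        MulAction.stabilizer G (Quot.mk (X.PieceStep D) (X.nb t i)) = P := by
      ext g
      rw [Subgroup.mem_inf, hstab, hstab, hP2]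
      exact fix_iff h2 h4 hX hsc hD hti g
    rw [h5]
    exact hP
  · intro a b h hle
    obtain ⟨t, i, hti, rfl, rfl⟩ := adj_exists hD.surf h
    obtain ⟨g, hg1, hg2⟩ := hproper t i hti
    apply hg2
    rw [← fix_iff h2 h4 hX hsc hD hti g]
    exact ⟨hg1, (hstab _ _).mp (hle ((hstab _ _).mpr hg1))⟩

theorem encl (hX : X.IsDeck G) (hD : X.IsJSJ G D) (henc : X.Enclosing G D) :
    letI := act hX hD
    ∀ P : Subgroup G, IsZ2 P → ∃ a : Quot (X.PieceStep D), P ≤ MulAction.stabilizer G a := by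
  let _ := act hX hD
  intro P hP
  obtain ⟨t, ht⟩ := henc P hP
  refine ⟨Quot.mk _ t, fun g hg => ?_⟩
  rw [MulAction.mem_stabilizer_iff, act_mk hX hD, eq_comm, mk_eq]
  exact ht g hg

theorem crit (h2 : PR2) (h4 : PR4) (hX : X.IsDeck G) (hsc : X.SimplyConn) (hD : X.IsJSJ G D)
    (hgeo : X.IsGeometric G D) :
    letI := act hX hD
    TreeCrit G (X.treeGraph D) := by
  let _ := act hX hD
  have hmk : ∀ (g : G) (t : τ), g • (Quot.mk (X.PieceStep D) t) = Quot.mk _ (g • t) :=
    act_mk hX hD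
  have hfix : ∀ (g : G) (t : τ), g • (Quot.mk (X.PieceStep D) t) = Quot.mk (X.PieceStep D) t ↔
      X.PieceRel D t (g • t) := by
    intro g t
    rw [hmk, eq_comm, mk_eq]
  have hfib : ∀ (t : τ) (N : Subgroup G), FibT (Quot.mk (X.PieceStep D) t) N ↔
      X.IsFibre D t N := by
    intro t N
    simp only [FibT, Tri.IsFibre, hfix]
  refine ⟨?_, ?_⟩
  · rintro ⟨t⟩
    rcases hgeo.pieces t with ⟨N, hN⟩ | hac
    · exact Or.inl ⟨N, (hfib t N).2 hN⟩
    · right
      intro b b' hb hb' hne g h5 h6 h7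
      obtain ⟨t1, i1, hti1, he1, rfl⟩ := adj_exists hD.surf hb
      obtain ⟨t2, i2, hti2, he2, rfl⟩ := adj_exists hD.surf hb'
      have r1 : X.PieceRel D t t1 := mk_eq.mp he1
      have r2 : X.PieceRel D t t2 := mk_eq.mp he2
      have h8 : ¬ X.SideRel D (t1, i1) (t2, i2) := by
        intro h
        exact hne (mk_eq.mpr ((h2 X D hD.surf).1 (t1, i1) (t2, i2) hti1 h).2.2.1)
      have h9 : g • Quot.mk (X.PieceStep D) t1 = Quot.mk (X.PieceStep D) t1 := by
        rw [← he1]
        exact h5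
      have h10 : g • Quot.mk (X.PieceStep D) t2 = Quot.mk (X.PieceStep D) t2 := by
        rw [← he2]
        exact h5
      refine hac (t1, i1) hti1 (t2, i2) hti2 r1 r2 h8 g ?_ ?_
      · exact (fix_iff h2 h4 hX hsc hD hti1 g).1 ⟨(hfix g t1).1 h9, (hfix g _).1 h6⟩
      · exact (fix_iff h2 h4 hX hsc hD hti2 g).1 ⟨(hfix g t2).1 h10, (hfix g _).1 h7⟩
  · intro v w hvw N N' hN hN'
    obtain ⟨t, i, hti, rfl, rfl⟩ := adj_exists hD.surf hvw
    exact hgeo.no_match t i hti N N' ((hfib _ _).1 hN) ((hfib _ _).1 hN')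

/-- an equivariant choice of a tetrahedron at every vertex -/
theorem exists_tet (hX : X.IsDeck G) : ∃ T : V → τ, (∀ (g : G) v, T (g • v) = g • T v) ∧
    ∀ v, ∃ j, X.vx (T v) j = v := by
  choose T0 j0 h0 using X.vx_surj
  have hex : ∀ v : V, ∃ g : G, g • (cl G v).out = v := by
    intro v
    have : (MulAction.orbitRel G V).r v (cl G v).out :=
      Quotient.exact (Quotient.out_eq (cl G v)).symm
    obtain ⟨g, hg⟩ := this
    exact ⟨g, hg⟩
  choose γ hγ using hex
  refine ⟨fun v => γ v • T0 (cl G v).out, fun g v => ?_, fun v => ⟨j0 (cl G v).out, ?_⟩⟩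
  · have hcl : cl G (g • v) = cl G v := Quotient.sound ⟨g, rfl⟩
    have h1 := hγ (g • v)
    rw [hcl] at h1
    have h2 : γ (g • v) = g * γ v := by
      have h3 : ((g * γ v)⁻¹ * γ (g • v)) • (cl G v).out = (cl G v).out := by
        rw [mul_smul, h1, mul_inv_rev, mul_smul, inv_smul_smul, inv_smul_eq_iff, hγ v]
      have h4 := hX.free_vx _ _ h3
      rwa [inv_mul_eq_one, eq_comm] at h4
    simp only [hcl, h2, mul_smul]
  · rw [hX.vx_smul, h0, hγ]

/-- tetrahedra at a vertex outside the surface lie in the same piece -/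
theorem piece_vx (v : V) (hv : ∀ t i j, (t, i) ∈ D → j ≠ i → X.vx t j ≠ v) {t t' : τ}
    {j j' : Fin 4} (h : X.vx t j = v) (h' : X.vx t' j' = v) : X.PieceRel D t t' := by
  have key : ∀ p q : τ × Fin 4, Relation.EqvGen
      (fun p q : τ × Fin 4 => ∃ i, p.2 ≠ i ∧ q = (X.nb p.1 i, X.pm p.1 i p.2)) p q →
      (X.vx p.1 p.2 = X.vx q.1 q.2) ∧ (X.vx p.1 p.2 = v → X.PieceRel D p.1 q.1) := by
    intro p q hpq
    induction hpq with
    | rel p q hpq =>
      obtain ⟨i, hi, rfl⟩ := hpq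
      refine ⟨(X.vx_nb p.1 i p.2 hi).symm, fun hpv => ?_⟩
      refine Relation.EqvGen.rel _ _ ⟨i, fun hD => ?_, rfl⟩
      exact hv p.1 i p.2 hD hi hpv
    | refl p => exact ⟨rfl, fun _ => Relation.EqvGen.refl _⟩
    | symm p q _ ih =>
      exact ⟨ih.1.symm, fun h => Relation.EqvGen.symm _ _ (ih.2 (ih.1.trans h))⟩
    | trans p q r _ _ ih1 ih2 =>
      exact ⟨ih1.1.trans ih2.1, fun h => Relation.EqvGen.trans _ _ _ (ih1.2 h)
        (ih2.2 (ih1.1.symm.trans h))⟩
  exact (key (t, j) (t', j') (X.vx_eq t j t' j' (h.trans h'.symm))).2 h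

/-- the context of the tree of the tori of `X` itself -/
theorem noZ2 (hR1 : PR1) (h2 : PR2) (h4 : PR4) (k2s : PK2s) (hX : X.IsDeck G) (hsc : X.SimplyConn)
    (hH2 : X.H2Zero) (hD : X.IsJSJ G D)
    (hproper : ∀ t i, (t, i) ∈ D → ∃ g : G, X.PieceRel D t (g • t) ∧
      ¬ X.SideRel D (t, i) (g • t, i)) :
    letI := act hX hD
    NoZ2 G (X.treeGraph D) := by
  let _ := act hX hD
  have hpre : PreJSJ G (X.treeGraph D) := pre h2 h4 hX hsc hD hproper
  obtain ⟨T, hT1, hT2⟩ := exists_tet hX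
  let C : Ctx τ V (Quot (X.PieceStep D)) G :=
    { X := X
      S := X.treeGraph D
      ph := fun v => Quot.mk _ (T v)
      deck := hX
      conn := hsc.1
      H1 := hR1 X hsc
      H2 := hH2
      tree := hpre.tree
      adj_smul := hpre.adj_smul
      torus := hpre.torus
      proper := hpre.proper
      ph_smul := by
        intro g v
        rw [hT1, act_mk hX hD]
      ph_bd := by
        intro t i j k hbd hj hk
        have hstar : ∀ l, l ≠ i → X.PieceRel D t (T (X.vx t l)) := by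
          intro l hl
          obtain ⟨l', hl'⟩ := hT2 (X.vx t l)
          refine piece_vx (X.vx t l) ?_ rfl hl'
          intro t' i' j' hD' hj'
          exact hD.interior t' i' j' hD' hj' t i l hbd hl
        exact mk_eq.mpr (Relation.EqvGen.trans _ _ _
          (Relation.EqvGen.symm _ _ (hstar j hj)) (hstar k hk)) }
  intro s b1 b2 b3 e1 e2 e3 e12 e13 e23 H hH hle
  exact k2s C s b1 b2 b3 e1 e2 e3 e12 e13 e23 H hH (hle.1.trans inf_le_left)
    (hle.1.trans inf_le_right) hle.2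

/-- the quotient of the tree is the graph of the pieces -/
theorem iso (h4 : PR4) (hX : X.IsDeck G) (hsc : X.SimplyConn) (hD : X.IsJSJ G D) :
    letI := act hX hD
    Nonempty (quotGraph G (X.treeGraph D) ≃g X.pieceGraph G D) := by
  obtain ⟨htree, hadj, huniq⟩ := h4 X D hsc hD.surf
  let _ := act hX hD
  have hmk : ∀ (g : G) (t : τ), g • (Quot.mk (X.PieceStep D) t) = Quot.mk _ (g • t) :=
    act_mk hX hD
  refine ⟨?_⟩
  · let f : Quotient (MulAction.orbitRel G (Quot (X.PieceStep D))) → Quot (X.QStep G D) :=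
      Quotient.lift (Quot.lift (fun t => Quot.mk (X.QStep G D) t)
        (fun t t' h => Quot.sound (Or.inl h))) (by
          rintro ⟨t⟩ ⟨t'⟩ ⟨g, hg⟩
          have hg' : g • (Quot.mk (X.PieceStep D) t') = Quot.mk (X.PieceStep D) t := hg
          rw [hmk] at hg'
          have h5 : (Quot.lift (fun t => Quot.mk (X.QStep G D) t)
              (fun t t' h => Quot.sound (Or.inl h)) : Quot (X.PieceStep D) → _)
              (Quot.mk (X.PieceStep D) (g • t')) = Quot.mk (X.QStep G D) t := by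
            rw [hg']
          change Quot.mk (X.QStep G D) t = Quot.mk (X.QStep G D) t'
          rw [← h5]
          change Quot.mk (X.QStep G D) (g • t') = Quot.mk (X.QStep G D) t'
          have h7 : X.QStep G D t' (g • t') := Or.inr ⟨g, rfl⟩
          exact (Quot.sound h7).symm)
    let k : Quot (X.QStep G D) → Quotient (MulAction.orbitRel G (Quot (X.PieceStep D))) :=
      Quot.lift (fun t => Quotient.mk _ (Quot.mk (X.PieceStep D) t)) (by
        rintro t t' (h | ⟨g, rfl⟩)
        · exact congrArg _ (Quot.sound h)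
        · refine Quotient.sound ?_
          have h5 : g⁻¹ • (Quot.mk (X.PieceStep D) (g • t)) = Quot.mk _ t := by
            rw [hmk, inv_smul_smul]
          have h6 : (Quot.mk (X.PieceStep D) t) ∈
              MulAction.orbit G (Quot.mk (X.PieceStep D) (g • t)) := by
            rw [← h5]
            exact MulAction.mem_orbit _ _
          exact h6)
    let e : Quotient (MulAction.orbitRel G (Quot (X.PieceStep D))) ≃ Quot (X.QStep G D) :=
      { toFun := f
        invFun := k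
        left_inv := by
          rintro ⟨⟨t⟩⟩
          rfl
        right_inv := by
          rintro ⟨t⟩
          rfl }
    have he : ∀ t : τ, e (Quotient.mk _ (Quot.mk (X.PieceStep D) t)) = Quot.mk _ t := fun t => rfl
    have key : ∀ p q : Quotient (MulAction.orbitRel G (Quot (X.PieceStep D))),
        (∃ t i, (t, i) ∈ D ∧ Quot.mk (X.QStep G D) t = e p ∧
          Quot.mk (X.QStep G D) (X.nb t i) = e q) ↔
        ∃ a b, (X.treeGraph D).Adj a b ∧ Quotient.mk _ a = p ∧ Quotient.mk _ b = q := by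
      intro p q
      constructor
      · rintro ⟨t, i, hti, h5, h6⟩
        rw [← he] at h5 h6
        exact ⟨_, _, hadj t i hti, e.injective h5, e.injective h6⟩
      · rintro ⟨a, b, h, rfl, rfl⟩
        obtain ⟨t, i, hti, rfl, rfl⟩ := adj_exists hD.surf h
        exact ⟨t, i, hti, rfl, rfl⟩
    refine ⟨e, ?_⟩
    intro p q
    unfold Tri.pieceGraph quotGraph
    rw [SimpleGraph.fromRel_adj, SimpleGraph.fromRel_adj, key, key, e.injective.ne_iff]

end R5

end Pool.Agent.MP_343d73
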