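import Pool.Agent.Work.MP_343d73_gt.Bd.B02
import Pool.Agent.Work.MP_343d73_gt.Bd.B04
import Pool.Agent.Work.MP_343d73_gt.Bd.B03
import Pool.Agent.Work.MP_343d73_gt.R5

set_option autoImplicit false

/-!
The geometric form of the final theorem.
-/

namespace Pool.Agent.MP_343d73

/-- a graph with at most one vertex -/
theorem tw_subsingleton {U : Type} [Nonempty U] (Γ : SimpleGraph U) (h : ∀ a b : U, a = b) (k : ℕ) :
    TreewidthLE Γ k := by
  obtain ⟨a0⟩ := ‹Nonempty U›
  refine tw_small Γ _ {a0} (fun q => ?_) ?_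
  · rw [h q a0]
    exact Finset.mem_singleton_self _
  · simp

/-- two adjacent vertices with at most two neighbours -/
theorem two_orbits {σ G : Type} [Group G] [MulAction G σ] {S : SimpleGraph σ} (hS : PreJSJ G S)
    {u v : σ} (huv : S.Adj u v) (hu : ¬ Three S u) (hv : ¬ Three S v)
    (q : Quotient (MulAction.orbitRel G σ)) : q = cl G u ∨ q = cl G v := by
  have nb_orbit : ∀ (u v : σ), S.Adj u v → ¬ Three S u → ∀ x b : σ, x ∈ MulAction.orbit G u →
      S.Adj x b → b ∈ MulAction.orbit G v := by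
    intro u v hadj hu x b hx hxb
    obtain ⟨g, hg1, hg2⟩ := SetLike.not_le_iff_exists.1 (hS.proper u v hadj)
    rw [MulAction.mem_stabilizer_iff] at hg1 hg2
    obtain ⟨h, rfl⟩ := hx
    have h1 : S.Adj u (h⁻¹ • b) := by
      have := hS.adj_smul h⁻¹ _ _ hxb
      simpa using this
    have h2 : S.Adj u (g • v) := by
      have := hS.adj_smul g _ _ hadj
      rwa [hg1] at this
    have h3 : h⁻¹ • b ∈ MulAction.orbit G v := by
      by_contra hcon
      refine hu ⟨h⁻¹ • b, v, g • v, h1, hadj, h2, ?_, ?_, fun h => hg2 h.symm⟩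
      · intro h4
        exact hcon (by rw [h4]; exact MulAction.mem_orbit_self v)
      · intro h4
        exact hcon (by rw [h4]; exact MulAction.mem_orbit v g)
    obtain ⟨k, hk⟩ := h3
    refine ⟨h * k, ?_⟩
    simp only [mul_smul]
    simp only at hk
    rw [hk, smul_inv_smul]
  have hwalk : ∀ x y : σ, S.Walk x y → (x ∈ MulAction.orbit G u ∨ x ∈ MulAction.orbit G v) →
      (y ∈ MulAction.orbit G u ∨ y ∈ MulAction.orbit G v) := by
    intro x y w
    induction w with
    | nil => exact id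
    | cons h _ ih =>
      intro hx
      refine ih ?_
      rcases hx with hx | hx
      · exact Or.inr (nb_orbit u v huv hu _ _ hx h)
      · exact Or.inl (nb_orbit v u huv.symm hv _ _ hx h)
  obtain ⟨r, rfl⟩ := Quotient.exists_rep q
  obtain ⟨w⟩ := hS.tree.1 u r
  rcases hwalk u r w (Or.inl (MulAction.mem_orbit_self u)) with h | h
  · left
    exact Quotient.sound (MulAction.orbitRel_apply.2 h)
  · right
    exact Quotient.sound (MulAction.orbitRel_apply.2 h)

theorem final2 : Final2 := by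
  have a1 : PA1 := prA1
  have a2 : PA2 := prA2 a1
  have a3 : PA3 := prA3
  have a4 : PA4 := prA4
  have a5 : PA5 := prA5 a1 a2 a4
  have a6 : PA6 := prA6 a1 a2
  have a7 : PA7 := prA7 a1 a2
  have a8 : PA8 := prA8
  have a9 : PA9 := prA9 a1 a2 a8
  have b1 : PB1 := prB1
  have b2 : PB2 := prB2
  have b4 : PB4 := prB4
  have b5 : PB5 := prB5
  have f1 : PHF1 := prHF1 a1 a2 a3
  have d3 : PD3 := prD3 (prD2 prD1)
  have e3 : PE3 := prE3 prE1 (prE2 a1 a2 a8 a9) a8
  have e4 : PE4 := prE4 b4
  have e6 : PE6 := prE6 b1 a8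
  have e7 : PE7 := prE7 b2 prC2 prC3 prC4 a8
  have k2s : PK2s := prK2s prK1 b5 d3 e3 e4 prE5 e6 e7 prE8 f1 a6 a8
  have r1 : PR1 := prR1
  have r2 : PR2 := prR2
  have r4 : PR4 := prR4 r2 (prR3 )
  intro τ V τ' V' G _ _ _ _ _ X Y D hX hXs hX2 hXt hY hYs hY2 hJ k hk
  have hne : Nonempty (Quot (Y.QStep G D)) := hYs.1.1.map (Quot.mk _)
  by_cases hsub : Subsingleton (Quot (Y.QStep G D))
  · exact tw_subsingleton _ (fun a b => Subsingleton.elim a b) _
  by_cases hD : D.Nonempty
  · have hproper := hJ.proper.resolve_left hsub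
    have hcan := hJ.canonical.resolve_left hsub
    let _ := R5.act hY hJ
    have hpre : PreJSJ G (Y.treeGraph D) := R5.pre r2 r4 hY hYs hJ hproper
    have hiso : Nonempty (quotGraph G (Y.treeGraph D) ≃g Y.pieceGraph G D) :=
      R5.iso r4 hY hYs hJ
    refine prR6 _ _ hiso _ ?_
    by_cases hcase : ∃ u v, (Y.treeGraph D).Adj u v ∧ ¬ Three (Y.treeGraph D) u ∧
        ¬ Three (Y.treeGraph D) v
    · obtain ⟨u, v, huv, hu, hv⟩ := hcase
      classical
      refine tw_small (quotGraph G (Y.treeGraph D)) _ {cl G u, cl G v} (fun q => ?_)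
        (le_trans Finset.card_le_two (by omega))
      rcases two_orbits hpre huv hu hv q with h | h <;> simp [h]
    · have hval : ∀ u v, (Y.treeGraph D).Adj u v →
          Three (Y.treeGraph D) u ∨ Three (Y.treeGraph D) v := by
        intro u v huv
        by_contra hcon
        rw [not_or] at hcon
        exact hcase ⟨u, v, huv, hcon.1, hcon.2⟩
      have henc : ∀ P : Subgroup G, IsZ2 P →
          ∃ a : Quot (Y.PieceStep D), P ≤ MulAction.stabilizer G a := by
        rcases hcan with hgeo | henc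
        · exact Crit.enclosing a4 a5 a7 a8 hpre (R5.crit r2 r4 hY hYs hJ hgeo)
            (R5.noZ2 r1 r2 r4 k2s hY hYs hY2 hJ hproper) hval
        · exact R5.encl hY hJ henc
      have hT : IsJSJTree G (Y.treeGraph D) :=
        ⟨hpre.tree, hpre.adj_smul, hpre.no_inv, hpre.torus, hpre.proper, henc⟩
      exact main_final X (Y.treeGraph D) hX hXs.1 (r1 X hXs) hX2 (hXt hD) hT k hk
  · exfalso
    apply hsub
    have hall : ∀ t i, (t, i) ∉ D := fun t i hti => hD ⟨_, hti⟩
    have hq : ∀ t t' : τ', Quot.mk (Y.QStep G D) t = Quot.mk _ t' := by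
      intro t t'
      have h1 := hYs.1.2 t t'
      induction h1 with
      | refl => rfl
      | tail _ hbc ih =>
        obtain ⟨i, rfl⟩ := hbc
        exact ih.trans (Quot.sound (Or.inl ⟨i, hall _ i, rfl⟩))
    refine ⟨?_⟩
    rintro ⟨t⟩ ⟨t'⟩
    exact hq t t'

end Pool.Agent.MP_343d73
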