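import Mathlib

set_option autoImplicit false

/-!
The definitions used in the final statement for MP_343d73_gt: oriented generalised triangulations,
deck groups, simple connectivity, second cohomology, JSJ tori, dual graphs, treewidth.
-/

namespace Pool.Agent.MP_343d73

/-- A (possibly infinite) oriented generalised triangulation: `τ` is the set of tetrahedra, `V` the
set of vertices, `vx t j` is vertex `j` of the tetrahedron `t`, and face `i` of `t` (the face
opposite to vertex `i`) is glued to face `pm t i i` of `nb t i` by the affine map that sends vertex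
`j` of `t` to vertex `pm t i j` of `nb t i`. A face glued to itself by the identity is a boundary
face; all other gluings join two different faces and reverse orientation. Two corners are the
same vertex exactly if gluings identify them. -/
structure Tri (τ V : Type) where
  vx : τ → Fin 4 → V
  nb : τ → Fin 4 → τ
  pm : τ → Fin 4 → Equiv.Perm (Fin 4)
  vx_surj : ∀ v : V, ∃ t i, vx t i = v
  nb_nb : ∀ t i, nb (nb t i) (pm t i i) = t
  pm_pm : ∀ t i, pm (nb t i) (pm t i i) = (pm t i)⁻¹
  vx_nb : ∀ t i j, j ≠ i → vx (nb t i) (pm t i j) = vx t j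
  vx_eq : ∀ t j t' j', vx t j = vx t' j' →
    Relation.EqvGen (fun p q : τ × Fin 4 => ∃ i, p.2 ≠ i ∧ q = (nb p.1 i, pm p.1 i p.2))
      (t, j) (t', j')
  bdry : ∀ t i, nb t i = t → pm t i i = i → pm t i = 1
  orient : ∀ t i, ¬ (nb t i = t ∧ pm t i i = i) → Equiv.Perm.sign (pm t i) = -1

variable {τ V : Type}

/-- face `i` of `t` is a boundary face -/
def Tri.Bd (X : Tri τ V) (t : τ) (i : Fin 4) : Prop := X.nb t i = t ∧ X.pm t i i = i

/-- the vertices of face `i` in positive order are `fa i`, `fb i`, `fc i` -/
def fa : Fin 4 → Fin 4 := ![1, 0, 0, 0]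
def fb : Fin 4 → Fin 4 := ![2, 3, 1, 2]
def fc : Fin 4 → Fin 4 := ![3, 2, 3, 1]

/-- real 1-cochains: `b t j k` is the value on the edge of `t` from vertex `j` to vertex `k` -/
def Tri.IsC1 (X : Tri τ V) (b : τ → Fin 4 → Fin 4 → ℝ) : Prop :=
  (∀ t j k, b t k j = - b t j k) ∧
  ∀ t i j k, j ≠ i → k ≠ i → b (X.nb t i) (X.pm t i j) (X.pm t i k) = b t j k

/-- coboundary of a 1-cochain on face `i` of `t`, oriented as the boundary of `t` -/
def d1 (b : τ → Fin 4 → Fin 4 → ℝ) (t : τ) (i : Fin 4) : ℝ :=
  b t (fa i) (fb i) + b t (fb i) (fc i) + b t (fc i) (fa i)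

/-- real 2-cochains: `e t i` is the value on face `i` of `t`, oriented as the boundary of `t` -/
def Tri.IsC2 (X : Tri τ V) (e : τ → Fin 4 → ℝ) : Prop :=
  ∀ t i, ¬ X.Bd t i → e (X.nb t i) (X.pm t i i) = - e t i

/-- the second real cohomology vanishes -/
def Tri.H2Zero (X : Tri τ V) : Prop :=
  ∀ e, X.IsC2 e → (∀ t, ∑ i, e t i = 0) → ∃ b, X.IsC1 b ∧ ∀ t i, d1 b t i = e t i

/-- the triangulation is not empty and any two tetrahedra are joined by a chain of neighbours -/
def Tri.Conn (X : Tri τ V) : Prop :=
  Nonempty τ ∧ ∀ t t' : τ, Relation.ReflTransGen (fun a b => ∃ i, X.nb a i = b) t t'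

/-- `G` acts on the triangulation by orientation preserving automorphisms, freely on tetrahedra and
vertices and with finitely many orbits of tetrahedra -/
structure Tri.IsDeck (X : Tri τ V) (G : Type) [Group G] [MulAction G τ] [MulAction G V] : Prop where
  nb_smul : ∀ (g : G) t i, X.nb (g • t) i = g • X.nb t i
  pm_smul : ∀ (g : G) t i, X.pm (g • t) i = X.pm t i
  vx_smul : ∀ (g : G) t i, X.vx (g • t) i = g • X.vx t i
  free_tet : ∀ (g : G) (t : τ), g • t = t → g = 1
  free_vx : ∀ (g : G) (v : V), g • v = v → g = 1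
  cocompact : Finite (Quotient (MulAction.orbitRel G τ))

/-- the subgroup is isomorphic to `ℤ × ℤ` -/
def IsZ2 {G : Type} [Group G] (P : Subgroup G) : Prop := Nonempty (P ≃* Multiplicative (ℤ × ℤ))

/-- two vertices of a common boundary face -/
def Tri.BdRel (X : Tri τ V) (v w : V) : Prop :=
  ∃ t i j k, X.Bd t i ∧ j ≠ i ∧ k ≠ i ∧ X.vx t j = v ∧ X.vx t k = w

/-- the boundary of the quotient consists of incompressible tori: the stabiliser of every boundary
component is isomorphic to `ℤ × ℤ` -/
def Tri.ToralBoundary (X : Tri τ V) (G : Type) [Group G] [MulAction G τ] [MulAction G V] : Prop :=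
  ∀ t i j, X.Bd t i → j ≠ i → ∃ P : Subgroup G, IsZ2 P ∧
    ∀ g : G, g ∈ P ↔ Relation.EqvGen X.BdRel (X.vx t j) (g • X.vx t j)

/-- the dual graph of the quotient triangulation -/
def Tri.dualGraph (X : Tri τ V) (G : Type) [Group G] [MulAction G τ] :
    SimpleGraph (Quotient (MulAction.orbitRel G τ)) :=
  SimpleGraph.fromRel (fun p q => ∃ t i, Quotient.mk _ t = p ∧ Quotient.mk _ (X.nb t i) = q)

/-- the treewidth of the graph is at most `k` -/
def TreewidthLE {Q : Type} (D : SimpleGraph Q) (k : ℕ) : Prop :=
  ∃ (n : ℕ) (R : SimpleGraph (Fin n)) (B : Fin n → Finset Q), R.IsTree ∧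
    (∀ t, (B t).card ≤ k + 1) ∧ (∀ q, ∃ t, q ∈ B t) ∧
    (∀ q q', D.Adj q q' → ∃ t, q ∈ B t ∧ q' ∈ B t) ∧
    ∀ q, (R.induce {t | q ∈ B t}).Preconnected

/-! ### Simple connectivity, surfaces made of faces, JSJ tori -/

/-- Turning around an edge: the state `(t, i, j)` means that we are in `t` and leave it through
face `i`, turning around the common edge of the faces `i` and `j` of `t`. -/
def Tri.rot (X : Tri τ V) (p : τ × Fin 4 × Fin 4) : τ × Fin 4 × Fin 4 :=
  (X.nb p.1 p.2.1, X.pm p.1 p.2.1 p.2.2, X.pm p.1 p.2.1 p.2.1)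

/-- The face through which we leave after `l` turns. -/
def Tri.turn (X : Tri τ V) (t : τ) (i j : Fin 4) (l : ℕ) : τ × Fin 4 :=
  ((X.rot^[l] (t, i, j)).1, (X.rot^[l] (t, i, j)).2.1)

/-- Connected, and the fundamental group of the dual 2-complex is trivial: every labelling of the
(co-oriented) faces by elements of a group whose product around every edge is trivial is the
coboundary of a labelling of the tetrahedra. -/
def Tri.SimplyConn (X : Tri τ V) : Prop :=
  X.Conn ∧ ∀ (H : Type) [Group H] (g : τ → Fin 4 → H),
    (∀ t i, g (X.nb t i) (X.pm t i i) = (g t i)⁻¹) → (∀ t i, X.Bd t i → g t i = 1) →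
    (∀ t i j n, i ≠ j → X.rot^[n] (t, i, j) = (t, i, j) →
      ((List.range n).map fun l => g (X.turn t i j l).1 (X.turn t i j l).2).prod = 1) →
    ∃ f : τ → H, ∀ t i, g t i = (f t)⁻¹ * f (X.nb t i)

/-- `D` is a closed surface made of faces: it contains with a face the same face seen from the
other side, no boundary face, and around an edge of a face of `D` (which is an interior edge)
there are exactly two faces of `D`. -/
structure Tri.IsSurface (X : Tri τ V) (D : Set (τ × Fin 4)) : Prop where
  glue : ∀ t i, (t, i) ∈ D → (X.nb t i, X.pm t i i) ∈ D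
  two : ∀ t i j, (t, i) ∈ D → j ≠ i → ∃ n m, 0 < m ∧ m < n ∧ X.rot^[n] (t, i, j) = (t, i, j) ∧
    (∀ l, 0 < l → l < n → X.rot^[l] (t, i, j) ≠ (t, i, j)) ∧
    ∀ l, l < n → ¬ X.Bd (X.turn t i j l).1 (X.turn t i j l).2 ∧
      (X.turn t i j l ∈ D ↔ l = 0 ∨ l = m)

/-- The faces `a` and `b` of `D` are seen from the same side and have an edge in common: turning
around the edge, away from `a`, the first face of `D` is `b`. -/
def Tri.SideStep (X : Tri τ V) (D : Set (τ × Fin 4)) (a b : τ × Fin 4) : Prop :=
  a ∈ D ∧ b ∈ D ∧ ∃ j l, j ≠ a.2 ∧ b = X.turn a.1 j a.2 l ∧ ∀ l', l' < l → X.turn a.1 j a.2 l' ∉ D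

/-- the same side of the same component of `D` -/
def Tri.SideRel (X : Tri τ V) (D : Set (τ × Fin 4)) : τ × Fin 4 → τ × Fin 4 → Prop :=
  Relation.EqvGen (X.SideStep D)

/-- the two tetrahedra have a common face outside `D` -/
def Tri.PieceStep (X : Tri τ V) (D : Set (τ × Fin 4)) (t t' : τ) : Prop :=
  ∃ i, (t, i) ∉ D ∧ X.nb t i = t'

/-- the two tetrahedra lie in the same piece, i.e. in the same component of the complement
of `D` -/
def Tri.PieceRel (X : Tri τ V) (D : Set (τ × Fin 4)) : τ → τ → Prop :=
  Relation.EqvGen (X.PieceStep D)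

/-- the pieces of the quotient of `X` by `G` are the classes of this relation: tetrahedra of `X` up
to translation by `G` and crossing faces outside `D` -/
def Tri.QStep (X : Tri τ V) (G : Type) [Group G] [MulAction G τ] (D : Set (τ × Fin 4)) (t t' : τ) :
    Prop := X.PieceStep D t t' ∨ ∃ g : G, g • t = t'

/-- `N` is an infinite cyclic normal subgroup of the fundamental group of the piece that contains
`t` (the fibre group, if the piece is Seifert fibred) -/
def Tri.IsFibre (X : Tri τ V) {G : Type} [Group G] [MulAction G τ] (D : Set (τ × Fin 4)) (t : τ)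
    (N : Subgroup G) : Prop :=
  Nonempty (N ≃* Multiplicative ℤ) ∧ (∀ n ∈ N, X.PieceRel D t (n • t)) ∧
    ∀ g : G, X.PieceRel D t (g • t) → ∀ n ∈ N, g * n * g⁻¹ ∈ N

/-- The piece that contains `t` is acylindrical (for example hyperbolic): the groups of two different
sides of components of `D` that bound the piece have trivial intersection. -/
def Tri.Acylindrical (X : Tri τ V) (G : Type) [Group G] [MulAction G τ] (D : Set (τ × Fin 4))
    (t : τ) : Prop :=
  ∀ a ∈ D, ∀ b ∈ D, X.PieceRel D t a.1 → X.PieceRel D t b.1 → ¬ X.SideRel D a b →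
    ∀ g : G, X.SideRel D a (g • a.1, a.2) → X.SideRel D b (g • b.1, b.2) → g = 1

/-- Every piece is Seifert fibred (its group has an infinite cyclic normal subgroup) or acylindrical
(hyperbolic), and the fibres of adjacent Seifert pieces do not match. -/
structure Tri.IsGeometric (X : Tri τ V) (G : Type) [Group G] [MulAction G τ]
    (D : Set (τ × Fin 4)) : Prop where
  pieces : ∀ t, (∃ N : Subgroup G, X.IsFibre D t N) ∨ X.Acylindrical G D t
  no_match : ∀ t i, (t, i) ∈ D → ∀ N N' : Subgroup G, X.IsFibre D t N →
    X.IsFibre D (X.nb t i) N' → N ⊓ N' = ⊥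

/-- Every essential torus can be moved into a piece: every subgroup of the fundamental group that
is isomorphic to `ℤ × ℤ` is conjugate into the fundamental group of a piece. -/
def Tri.Enclosing (X : Tri τ V) (G : Type) [Group G] [MulAction G τ] (D : Set (τ × Fin 4)) : Prop :=
  ∀ P : Subgroup G, IsZ2 P → ∃ t, ∀ g ∈ P, X.PieceRel D t (g • t)

/-- `D` is the preimage in `X` (the universal cover) of the system of JSJ tori of the quotient of
`X` by `G`. -/
structure Tri.IsJSJ (X : Tri τ V) (G : Type) [Group G] [MulAction G τ] (D : Set (τ × Fin 4)) :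
    Prop where
  /-- `D` is a closed surface made of faces -/
  surf : X.IsSurface D
  /-- `D` is disjoint from the boundary -/
  interior : ∀ t i j, (t, i) ∈ D → j ≠ i → ∀ t' i' j', X.Bd t' i' → j' ≠ i' →
    X.vx t j ≠ X.vx t' j'
  /-- `D` is invariant -/
  inv : ∀ (g : G) t i, (t, i) ∈ D → (g • t, i) ∈ D
  /-- the components of the surface in the quotient are two-sided: no element of `G` moves a side of
  a component of `D` to the opposite side -/
  two_sided : ∀ t i, (t, i) ∈ D → ∀ g : G, ¬ X.SideRel D (X.nb t i, X.pm t i i) (g • t, i)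
  /-- they are incompressible tori: the stabiliser of every side of every component of `D` is
  isomorphic to `ℤ × ℤ` -/
  torus : ∀ t i, (t, i) ∈ D → ∃ P : Subgroup G, IsZ2 P ∧ ∀ g : G, g ∈ P ↔ X.SideRel D (t, i) (g • t, i)
  /-- no piece is a product of a torus and an interval (the fundamental group of a torus is a proper
  subgroup of the one of each adjacent piece), unless there is only one piece -/
  proper : Subsingleton (Quot (X.QStep G D)) ∨ ∀ t i, (t, i) ∈ D → ∃ g : G,
    X.PieceRel D t (g • t) ∧ ¬ X.SideRel D (t, i) (g • t, i)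
  /-- the tori are the JSJ tori: there is only one piece, or the pieces are Seifert fibred or
  acylindrical and the fibres of adjacent Seifert pieces do not match, or (the other usual
  characterisation) every essential torus can be moved into a piece -/
  canonical : Subsingleton (Quot (X.QStep G D)) ∨ X.IsGeometric G D ∨ X.Enclosing G D

/-- the dual graph of the JSJ decomposition of the quotient of `X` by `G`: its nodes are the pieces,
two pieces are adjacent if they are different and have a common face in `D` -/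
def Tri.pieceGraph (X : Tri τ V) (G : Type) [Group G] [MulAction G τ] (D : Set (τ × Fin 4)) :
    SimpleGraph (Quot (X.QStep G D)) :=
  SimpleGraph.fromRel (fun p q => ∃ t i, (t, i) ∈ D ∧ Quot.mk _ t = p ∧ Quot.mk _ (X.nb t i) = q)

end Pool.Agent.MP_343d73
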